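import Pool.Agent.H78.DS.Decode

/-!
# The code of a structure computes a copy of it
-/

set_option autoImplicit false

namespace Pool.Agent.H78.DS

open Finset Encodable FirstOrder FirstOrder.Language

/-- equality query -/
def eqq (z z' : ℕ) : ℕ := Nat.pair 2 (Nat.pair 0 (encode [z, z']))

theorem eqq_primrec : Primrec₂ eqq := by
  have h : Primrec₂ fun z z' : ℕ => [z, z'] :=
    Primrec.list_cons.comp Primrec.fst (Primrec.list_cons.comp Primrec.snd (Primrec.const []))
  exact Primrec₂.natPair.comp (Primrec.const 2) (Primrec₂.natPair.comp (Primrec.const 0)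
    (Primrec.encode.comp h))

/-- the `i`-th entry of `F` is the `i`-th least name, according to the prefix `p` -/
def Ok (F p : List ℕ) (i : ℕ) : Prop :=
  (∀ z < F.getD i 0 + 1, ∀ z' < z, eqq z' z < p.length) ∧
  (∀ z' < F.getD i 0, ¬ p.getD (eqq z' (F.getD i 0)) 0 = 1) ∧
  (∀ z < F.getD i 0, (∀ z' < z, ¬ p.getD (eqq z' z) 0 = 1) → ∃ j < i, F.getD j 0 = z) ∧
  (∀ j < i, F.getD j 0 < F.getD i 0)

theorem Ok_primrec {α : Type} [Primcodable α] {F p : α → List ℕ} {i : α → ℕ}
    (hF : Primrec F) (hp : Primrec p) (hi : Primrec i) :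
    PrimrecPred fun a => Ok (F a) (p a) (i a) := by
  have hFi : Primrec fun a => (F a).getD (i a) 0 := pgetD.comp hF hi
  refine PrimrecPred.and ?_ (PrimrecPred.and ?_ (PrimrecPred.and ?_ ?_))
  · refine ball (Primrec.succ.comp hFi) ?_
    refine ball Primrec.snd ?_
    exact Primrec.nat_lt.comp (eqq_primrec.comp Primrec.snd (Primrec.snd.comp Primrec.fst))
      (Primrec.list_length.comp (hp.comp (Primrec.fst.comp Primrec.fst)))
  · refine ball hFi (PrimrecPred.not ?_)
    exact Primrec.eq.comp (pgetD.comp (hp.comp Primrec.fst)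
      (eqq_primrec.comp Primrec.snd (hFi.comp Primrec.fst))) (Primrec.const 1)
  · refine ball hFi (pimp ?_ ?_)
    · refine ball Primrec.snd (PrimrecPred.not ?_)
      exact Primrec.eq.comp (pgetD.comp (hp.comp (Primrec.fst.comp Primrec.fst))
        (eqq_primrec.comp Primrec.snd (Primrec.snd.comp Primrec.fst))) (Primrec.const 1)
    · refine bex (hi.comp Primrec.fst) ?_
      exact Primrec.eq.comp (pgetD.comp (hF.comp (Primrec.fst.comp Primrec.fst)) Primrec.snd)
        (Primrec.snd.comp Primrec.fst)
  · refine ball hi ?_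
    exact Primrec.nat_lt.comp (pgetD.comp (hF.comp Primrec.fst) Primrec.snd)
      (hFi.comp Primrec.fst)

/-- the list of arguments coded in a number of the diagram -/
def args (m : ℕ) : List ℕ :=
  if m.unpair.1 = 0 then
    m.unpair.2.unpair.2.unpair.2 :: Denumerable.ofNat (List ℕ) m.unpair.2.unpair.2.unpair.1
  else Denumerable.ofNat (List ℕ) m.unpair.2.unpair.2

theorem args_primrec : Primrec args := by
  refine Primrec.ite (Primrec.eq.comp pfst (Primrec.const 0)) ?_ ?_
  · exact Primrec.list_cons.comp (psnd.comp (psnd.comp psnd))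
      ((Primrec.ofNat (List ℕ)).comp (pfst.comp (psnd.comp psnd)))
  · exact (Primrec.ofNat (List ℕ)).comp (psnd.comp psnd)

/-- the query to the code to be asked for the number `m` of the diagram -/
def qry (F : List ℕ) (m : ℕ) : ℕ :=
  Nat.pair m.unpair.1 (Nat.pair m.unpair.2.unpair.1 (encode ((args m).map fun x => F.getD x 0)))

theorem qry_primrec {α : Type} [Primcodable α] {F : α → List ℕ} {m : α → ℕ}
    (hF : Primrec F) (hm : Primrec m) : Primrec fun a => qry (F a) (m a) := by
  refine Primrec₂.natPair.comp (pfst.comp hm) (Primrec₂.natPair.comp (pfst.comp (psnd.comp hm)) ?_)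
  refine Primrec.encode.comp ?_
  exact Primrec.list_map (args_primrec.comp hm)
    (pgetD.comp (hF.comp Primrec.fst) Primrec.snd).to₂

/-- list in the witness -/
def wF (v : ℕ) : List ℕ := Denumerable.ofNat (List ℕ) v.unpair.2

/-- search predicate for the copy -/
def Srch2 (m v : ℕ) (p : List ℕ) : Prop :=
  (∀ i < (wF v).length, Ok (wF v) p i) ∧
  (∀ i < (args m).length, (args m).getD i 0 < (wF v).length) ∧
  qry (wF v) m < p.length ∧ v.unpair.1.unpair.1 ≤ 1 ∧
  (v.unpair.1.unpair.1 = 1 ↔ (m.unpair.1 ≤ 1 ∧ p.getD (qry (wF v) m) 0 = 1))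

theorem Srch2_primrec : PrimrecPred fun x : (ℕ × ℕ) × List ℕ => Srch2 x.1.1 x.1.2 x.2 := by
  have hF : Primrec fun x : (ℕ × ℕ) × List ℕ => wF x.1.2 :=
    (Primrec.ofNat (List ℕ)).comp (psnd.comp (Primrec.snd.comp Primrec.fst))
  have hm : Primrec fun x : (ℕ × ℕ) × List ℕ => x.1.1 := Primrec.fst.comp Primrec.fst
  have hb : Primrec fun x : (ℕ × ℕ) × List ℕ => x.1.2.unpair.1.unpair.1 :=
    pfst.comp (pfst.comp (Primrec.snd.comp Primrec.fst))
  have hq : Primrec fun x : (ℕ × ℕ) × List ℕ => qry (wF x.1.2) x.1.1 := qry_primrec hF hm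
  refine PrimrecPred.and ?_ (PrimrecPred.and ?_ (PrimrecPred.and ?_ (PrimrecPred.and ?_ ?_)))
  · refine ball (Primrec.list_length.comp hF) ?_
    exact Ok_primrec (hF.comp Primrec.fst) (Primrec.snd.comp Primrec.fst) Primrec.snd
  · refine ball (Primrec.list_length.comp (args_primrec.comp hm)) ?_
    exact Primrec.nat_lt.comp (pgetD.comp (args_primrec.comp (hm.comp Primrec.fst)) Primrec.snd)
      (Primrec.list_length.comp (hF.comp Primrec.fst))
  · exact Primrec.nat_lt.comp hq (Primrec.list_length.comp Primrec.snd)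
  · exact Primrec.nat_le.comp hb (Primrec.const 1)
  · refine piff (Primrec.eq.comp hb (Primrec.const 1)) (PrimrecPred.and ?_ ?_)
    · exact Primrec.nat_le.comp (pfst.comp hm) (Primrec.const 1)
    · exact Primrec.eq.comp (pgetD.comp Primrec.snd hq) (Primrec.const 1)

section

variable {L : FirstOrder.Language.{0, 0}} [Primcodable (Σ n, L.Functions n)]
  [Primcodable (Σ n, L.Relations n)]

theorem mem_diag_iff (A : L.Structure ℕ) (m : ℕ) :
    m ∈ diag L A ↔ (m.unpair.1 ≤ 1 ∧ At L A m.unpair.1 m.unpair.2.unpair.1 (args m)) := by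
  constructor
  · rintro (⟨n, f, xs, rfl⟩ | ⟨n, r, xs, rfl, hr⟩)
    · refine ⟨by simp, Or.inl ⟨by simp, n, f, xs, by simp, ?_⟩⟩
      simp [args]
    · refine ⟨by simp, Or.inr (Or.inl ⟨by simp, n, r, xs, by simp, ?_, hr⟩)⟩
      simp [args]
  · rintro ⟨h1, ⟨h0, n, f, xs, hs, hl⟩ | ⟨h0, n, r, xs, hs, hl, hr⟩ | ⟨h0, _⟩⟩
    · refine Or.inl ⟨n, f, xs, ?_⟩
      rw [args, if_pos h0, List.cons.injEq] at hl
      rw [← Nat.pair_unpair m, h0, ← Nat.pair_unpair m.unpair.2, hs,
        ← Nat.pair_unpair m.unpair.2.unpair.2, hl.1, ← hl.2, encode_ofNat_list]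
    · refine Or.inr ⟨n, r, xs, ?_, hr⟩
      rw [args, if_neg (by omega)] at hl
      rw [← Nat.pair_unpair m, h0, ← Nat.pair_unpair m.unpair.2, hs, ← hl, encode_ofNat_list]
    · omega

theorem exists_copy {M : Type} [Infinite M] (iM : L.Structure M) (ℓ k : ℕ) (ρ : Rep k → M)
    (hsurj : ∀ x, ∃ r : Rep k, r.1 < ℓ ∧ ρ r = x) :
    ∃ (A : L.Structure ℕ) (σ : ℕ ≃ M), Iso A iM σ ∧
      TuringReducible (PFun.lift ((diag L A).indicator (fun _ => 1)))
        (PFun.lift (Xc (At L iM) ρ ℓ)) := by
  classical
  -- every element has a name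
  have hname : ∀ x : M, ∃ z, el ρ ℓ z = x := by
    intro x
    obtain ⟨r, hr, rfl⟩ := hsurj x
    choose u hu using rat_surj
    refine ⟨nm (r.1 :: List.ofFn fun j => u (r.2 j)), ?_⟩
    simp only [el, co_nm]
    congr 1
    refine Prod.ext ?_ ?_
    · simp [Nat.mod_eq_of_lt hr]
    · funext j
      simp [List.getD_eq_getElem?_getD, hu]
  -- least names
  let rep : ℕ → Prop := fun z => ∀ z' < z, el ρ ℓ z' ≠ el ρ ℓ z
  have hrep : ∀ x : M, ∃ z, rep z ∧ el ρ ℓ z = x := by
    intro x
    refine ⟨Nat.find (hname x), ?_, Nat.find_spec (hname x)⟩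
    intro z' hz' h
    rw [Nat.find_spec (hname x)] at h
    exact Nat.find_min (hname x) hz' h
  have hrinj : ∀ z z', rep z → rep z' → el ρ ℓ z = el ρ ℓ z' → z = z' := by
    intro z z' hz hz' h
    rcases lt_trichotomy z z' with h1 | h1 | h1
    · exact absurd h (hz' z h1)
    · exact h1
    · exact absurd h.symm (hz z' h1)
  have hinf : {z | rep z}.Infinite := by
    choose g hg1 hg2 using hrep
    have hgi : Function.Injective g := fun x y h => by rw [← hg2 x, ← hg2 y, h]
    exact (Set.infinite_range_of_injective hgi).mono (by rintro _ ⟨x, rfl⟩; exact hg1 x)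
  set f : ℕ → ℕ := Nat.nth rep with hf
  have hfm : StrictMono f := Nat.nth_strictMono hinf
  have hfr : ∀ i, rep (f i) := fun i => Nat.nth_mem_of_infinite hinf i
  have hfs : ∀ z, rep z → ∃ i, f i = z := fun z hz => ⟨Nat.count rep z, Nat.nth_count hz⟩
  have hbij : Function.Bijective fun i => el ρ ℓ (f i) := by
    constructor
    · intro i j h
      exact hfm.injective (hrinj _ _ (hfr i) (hfr j) h)
    · intro x
      obtain ⟨z, hz, hx⟩ := hrep x
      obtain ⟨i, rfl⟩ := hfs z hz
      exact ⟨i, hx⟩
  let β : ℕ ≃ M := Equiv.ofBijective _ hbij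
  have hβ : ∀ i, β i = el ρ ℓ (f i) := fun i => rfl
  let A : L.Structure ℕ :=
    { funMap := fun {n} g xs => β.symm (@Structure.funMap L M iM n g (β ∘ xs))
      RelMap := fun {n} r xs => @Structure.RelMap L M iM n r (β ∘ xs) }
  have hA : Iso A iM β := ⟨fun n g xs => by
    change β (β.symm _) = _
    rw [Equiv.apply_symm_apply], fun n r xs => Iff.rfl⟩
  refine ⟨A, β, hA, ?_⟩
  set X := Xc (At L iM) ρ ℓ with hX
  have hXe : ∀ z z', X (eqq z z') = 1 ↔ el ρ ℓ z = el ρ ℓ z' := by
    intro z z'
    rw [hX, Xc_eq_one]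
    simp only [qk, qs, ql, eqq, Nat.unpair_pair, Denumerable.ofNat_encode, List.map_cons,
      List.map_nil]
    constructor
    · rintro (⟨h, _⟩ | ⟨h, _⟩ | ⟨_, x, hx⟩)
      · omega
      · omega
      · simp only [List.cons.injEq, and_true] at hx
        rw [hx.1, hx.2]
    · intro h
      exact Or.inr (Or.inr ⟨le_rfl, el ρ ℓ z', by rw [h]⟩)
  have hans : ∀ m, m ∈ diag L A ↔ (m.unpair.1 ≤ 1 ∧ X (Nat.pair m.unpair.1
      (Nat.pair m.unpair.2.unpair.1 (encode ((args m).map f)))) = 1) := by
    intro m
    rw [mem_diag_iff, ← At.map_iff hA, hX, Xc_eq_one]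
    simp only [qk, qs, ql, Nat.unpair_pair, Denumerable.ofNat_encode, List.map_map]
    rfl
  -- the test forces the list to be an initial segment of the enumeration
  have hOk : ∀ (F : List ℕ) (v : ℕ), (∀ i < F.length, Ok F (pre X v) i) →
      ∀ i < F.length, F.getD i 0 = f i := by
    intro F v hF i
    induction i using Nat.strong_induction_on with
    | _ i ih =>
      intro hi
      obtain ⟨h1, h2, h3, h4⟩ := hF i hi
      rw [pre_length] at h1
      have hp : ∀ z < F.getD i 0 + 1, ∀ z' < z,
          ((pre X v).getD (eqq z' z) 0 = 1 ↔ el ρ ℓ z' = el ρ ℓ z) := by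
        intro z hz z' hz'
        rw [pre_getD X (h1 z hz z' hz'), hXe]
      have hr : rep (F.getD i 0) := by
        intro z' hz' he
        exact h2 z' hz' ((hp _ (Nat.lt_succ_self _) z' hz').2 he)
      obtain ⟨j', hj'⟩ := hfs _ hr
      rcases lt_trichotomy j' i with h | h | h
      · exfalso
        have h5 := h4 j' h
        rw [ih j' h (h.trans hi), hj'] at h5
        exact lt_irrefl _ h5
      · rw [← hj', h]
      · exfalso
        have h5 : f i < F.getD i 0 := by rw [← hj']; exact hfm h
        obtain ⟨j, hj, hj2⟩ := h3 (f i) h5 (by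
          intro z' hz' he
          exact hfr i z' hz' ((hp (f i) (h5.trans (Nat.lt_succ_self _)) z' hz').1 he))
        rw [ih j hj (hj.trans hi)] at hj2
        exact absurd (hfm.injective hj2) (by omega)
  refine recursiveIn_of_search _ _ Srch2 (fun _ v => v.unpair.1.unpair.1) Srch2_primrec
    (pfst.comp (pfst.comp Primrec.snd)) ?_ ?_
  · intro m
    -- length of the list
    let K : ℕ := ∑ i ∈ range (args m).length, ((args m).getD i 0 + 1)
    let F : List ℕ := (List.range K).map f
    have hFl : F.length = K := by simp [F]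
    have hFi : ∀ i < K, F.getD i 0 = f i := by
      intro i hi
      simp [F, List.getD_eq_getElem?_getD, hi]
    have hK : ∀ i < (args m).length, (args m).getD i 0 < K := by
      intro i hi
      have := single_le_sum (f := fun i => (args m).getD i 0 + 1) (s := range (args m).length)
        (fun _ _ => Nat.zero_le _) (mem_range.2 hi)
      exact this
    let b1 : ℕ := ∑ z ∈ range (f K + 1), ∑ z' ∈ range z, (eqq z' z + 1)
    let pad : ℕ := b1 + qry F m + 1
    let bit : ℕ := if m ∈ diag L A then 1 else 0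
    let v : ℕ := Nat.pair (Nat.pair bit pad) (encode F)
    have hvF : wF v = F := by simp [wF, v]
    have hvb : v.unpair.1.unpair.1 = bit := by simp [v]
    have hpad : pad ≤ v := (Nat.right_le_pair bit pad).trans (Nat.left_le_pair _ _)
    have hb1 : ∀ z < f K + 1, ∀ z' < z, eqq z' z < v := by
      intro z hz z' hz'
      have e1 := single_le_sum (f := fun z' => eqq z' z + 1) (s := range z)
        (fun _ _ => Nat.zero_le _) (mem_range.2 hz')
      have e2 := single_le_sum (f := fun z => ∑ z' ∈ range z, (eqq z' z + 1))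
        (s := range (f K + 1)) (fun _ _ => Nat.zero_le _) (mem_range.2 hz)
      have e3 : eqq z' z + 1 ≤ b1 := e1.trans e2
      omega
    have hq : qry F m < v := by omega
    have hmapF : (args m).map (fun x => F.getD x 0) = (args m).map f := by
      apply List.map_congr_left
      intro x hx
      obtain ⟨i, hi, rfl⟩ := List.getElem_of_mem hx
      have := hK i hi
      rw [List.getD_eq_getElem _ _ hi] at this
      exact hFi _ this
    refine ⟨v, ?_, ?_, ?_, ?_, ?_⟩
    · intro i hi
      rw [hvF] at hi ⊢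
      have hiK : i < K := by rw [← hFl]; exact hi
      have hfi : f i < f K := hfm hiK
      have hp : ∀ z < f i + 1, ∀ z' < z,
          ((pre X v).getD (eqq z' z) 0 = 1 ↔ el ρ ℓ z' = el ρ ℓ z) := by
        intro z hz z' hz'
        rw [pre_getD X (hb1 z (by omega) z' hz'), hXe]
      refine ⟨?_, ?_, ?_, ?_⟩
      · rw [hFi i hiK, pre_length]
        intro z hz z' hz'
        exact hb1 z (by omega) z' hz'
      · rw [hFi i hiK]
        intro z' hz' he
        exact hfr i z' hz' ((hp _ (Nat.lt_succ_self _) z' hz').1 he)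
      · rw [hFi i hiK]
        intro z hz hz2
        have hrz : rep z := by
          intro z' hz' he
          exact hz2 z' hz' ((hp z (by omega) z' hz').2 he)
        obtain ⟨j, hj⟩ := hfs z hrz
        have hji : j < i := by
          by_contra hcon
          have := hfm.monotone (not_lt.1 hcon)
          omega
        exact ⟨j, hji, by rw [hFi j (by omega), hj]⟩
      · intro j hj
        rw [hFi i hiK, hFi j (by omega)]
        exact hfm hj
    · rw [hvF, hFl]; exact hK
    · rw [hvF, pre_length]; exact hq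
    · rw [hvb]; simp only [bit]; split_ifs <;> simp
    · rw [hvb, hvF, pre_getD X hq]
      have e : qry F m = Nat.pair m.unpair.1
          (Nat.pair m.unpair.2.unpair.1 (encode ((args m).map f))) := by
        rw [qry, hmapF]
      rw [e, ← hans m]
      simp only [bit]
      split_ifs with h <;> simp [h]
  · intro m v ⟨h1, h2, h3, h4, h5⟩
    have hF := hOk (wF v) v h1
    rw [pre_length] at h3
    rw [pre_getD X h3] at h5
    have hmapF : (args m).map (fun x => (wF v).getD x 0) = (args m).map f := by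
      apply List.map_congr_left
      intro x hx
      obtain ⟨i, hi, rfl⟩ := List.getElem_of_mem hx
      have := h2 i hi
      rw [List.getD_eq_getElem _ _ hi] at this
      exact hF _ this
    have e : qry (wF v) m = Nat.pair m.unpair.1
          (Nat.pair m.unpair.2.unpair.1 (encode ((args m).map f))) := by
      rw [qry, hmapF]
    rw [e, ← hans m] at h5
    rw [Set.indicator_apply]
    split_ifs with h
    · exact h5.2 h
    · have : ¬ v.unpair.1.unpair.1 = 1 := fun h' => h (h5.1 h')
      omega

end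

end Pool.Agent.H78.DS
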