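import Pool.Agent.H78.DS.Diag

/-!
# Decoding the code of a structure from any copy of it
-/

set_option autoImplicit false

namespace Pool.Agent.H78.DS

open Finset Encodable FirstOrder FirstOrder.Language

/-- the element named by `z` -/
def el {M : Type} {k : ℕ} (ρ : Rep k → M) (ℓ z : ℕ) : M :=
  ρ (co z 0 % ℓ, fun j => rat (co z (j + 1)))

/-- the code of the structure: which facts hold for the named elements -/
noncomputable def Xc {M : Type} {k : ℕ} (P : ℕ → ℕ → List M → Prop) (ρ : Rep k → M) (ℓ : ℕ) :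
    ℕ → ℕ :=
  Set.indicator {q | P (qk q) (qs q) ((ql q).map (el ρ ℓ))} (fun _ => 1)

theorem Xc_eq_one {M : Type} {k : ℕ} {P : ℕ → ℕ → List M → Prop} {ρ : Rep k → M} {ℓ q : ℕ} :
    Xc P ρ ℓ q = 1 ↔ P (qk q) (qs q) ((ql q).map (el ρ ℓ)) := by
  rw [Xc, ind_eq_one]; rfl

theorem Xc_le {M : Type} {k : ℕ} {P : ℕ → ℕ → List M → Prop} {ρ : Rep k → M} {ℓ q : ℕ} :
    Xc P ρ ℓ q ≤ 1 := by
  classical
  rw [Xc, Set.indicator_apply]
  split_ifs <;> simp

theorem inv_pat {M : Type} {ℓ k : ℕ} {P : ℕ → ℕ → List M → Prop} {ρ : Rep k → M}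
    (hinv : ∀ κ s n (x y : Fin n → Rep k), PatF x y →
        (P κ s (List.ofFn (ρ ∘ x)) ↔ P κ s (List.ofFn (ρ ∘ y)))) {κ s : ℕ} {l l' : List ℕ}
    (h : Pat ℓ k l l') : P κ s (l.map (el ρ ℓ)) ↔ P κ s (l'.map (el ρ ℓ)) := by
  have e : ∀ (l0 : List ℕ) (n : ℕ), l0.length = n → l0.map (el ρ ℓ) =
      List.ofFn (ρ ∘ fun i : Fin n =>
        ((co (l0.getD i 0) 0 % ℓ, fun j => rat (co (l0.getD i 0) (j + 1))) : Rep k)) := by
    intro l0 n hn
    apply List.ext_getElem
    · simp [hn]
    · intro i h1 h2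
      have h3 : i < l0.length := by simpa using h1
      have h4 : l0[i]?.getD 0 = l0[i] := by simp [h3]
      simp [el, h4]
  rw [e l l.length rfl, e l' l.length h.1.symm]
  apply hinv
  intro i i'
  have := h.2 i i.2 i' i'.2
  refine ⟨this.1, ?_⟩
  intro j j'
  have h2 := this.2 j j.2 j' j'.2
  rw [ltq_iff, ltq_iff] at h2
  exact h2

theorem U_pre {M : Type} {ℓ k : ℕ} {P : ℕ → ℕ → List M → Prop} {ρ : Rep k → M}
    (hinv : ∀ κ s n (x y : Fin n → Rep k), PatF x y →
        (P κ s (List.ofFn (ρ ∘ x)) ↔ P κ s (List.ofFn (ρ ∘ y)))) (N : ℕ → ℕ) (n : ℕ) :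
    UU ℓ k N P n (pre (Xc P ρ ℓ) n) := by
  refine ⟨pre_length _ _, ?_, el ρ ℓ, ?_⟩
  · intro q hq
    rw [pre_getD _ hq]
    exact Xc_le
  · intro q hq q' _ h1 h2 h3
    rw [pre_getD _ hq, Xc_eq_one, h1, h2]
    exact (inv_pat hinv h3).symm

section

variable {L : FirstOrder.Language.{0, 0}} [Primcodable (Σ n, L.Functions n)]
  [Primcodable (Σ n, L.Relations n)]

theorem UU_of_Chk {M : Type} {iM : L.Structure M} {A : L.Structure ℕ} {σ : ℕ ≃ M}
    (hσ : Iso A iM σ) {ℓ k n v : ℕ} {N : ℕ → ℕ} {w e : List ℕ}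
    (h : Chk ℓ k N n w e (pre ((diag L A).indicator (fun _ => 1)) v)) :
    UU ℓ k N (At L iM) n w := by
  refine ⟨h.1, h.2.1, fun z => σ (e.getD z 0), ?_⟩
  intro q hq q' hq' h1 h2 h3
  obtain ⟨c1, c2, c3⟩ := h.2.2 q hq q' hq' ⟨h1, h2, h3⟩
  rw [pre_length] at c1 c2
  rw [TT_iff A c1 c2] at c3
  rw [← c3, ← At.map_iff hσ, List.map_map]
  rfl

theorem Chk_of_UU {M : Type} {iM : L.Structure M} {A : L.Structure ℕ} {σ : ℕ ≃ M}
    (hσ : Iso A iM σ) {ℓ k n : ℕ} {N : ℕ → ℕ} {w : List ℕ}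
    (h : UU ℓ k N (At L iM) n w) :
    ∃ (e : List ℕ) (b : ℕ), ∀ v, b ≤ v →
      Chk ℓ k N n w e (pre ((diag L A).indicator (fun _ => 1)) v) := by
  obtain ⟨hl, hle, e, he⟩ := h
  let e' : List ℕ := (List.range (N n)).map fun z => σ.symm (e z)
  let m : ℕ → List ℕ := fun q' => (ql q').map fun z => e'.getD z 0
  let b : ℕ := ∑ q' ∈ range (N n), (num0 (qs q') (m q') + num1 (qs q') (m q') + 1)
  refine ⟨e', b, ?_⟩
  intro v hv
  refine ⟨hl, hle, ?_⟩
  intro q hq q' hq' hm
  have hb : num0 (qs q') (m q') + num1 (qs q') (m q') + 1 ≤ b :=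
    single_le_sum (f := fun q' => num0 (qs q') (m q') + num1 (qs q') (m q') + 1)
      (fun _ _ => Nat.zero_le _) (mem_range.2 hq')
  have h0 : num0 (qs q') (m q') < v := by omega
  have h1 : num1 (qs q') (m q') < v := by omega
  refine ⟨by rw [pre_length]; exact h0, by rw [pre_length]; exact h1, ?_⟩
  have hTT := TT_iff A (κ := qk q') h0 h1
  refine hTT.trans ?_
  rw [← he q hq q' hq' hm.1 hm.2.1 hm.2.2, ← At.map_iff hσ]
  have hmap : (m q').map σ = (ql q').map e := by
    simp only [m, List.map_map]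
    apply List.map_congr_left
    intro z hz
    have hzN : z < N n := by
      have h2 : ∀ (l : List ℕ), z ∈ l → z < encode l := by
        intro l
        induction l with
        | nil => intro h; simp at h
        | cons y ys ih =>
          intro h
          rw [Encodable.encode_list_cons]
          rcases List.mem_cons.1 h with rfl | h
          · exact Nat.lt_succ_of_le (Nat.left_le_pair (encode z) (encode ys))
          · exact (ih h).trans_le ((Nat.right_le_pair _ _).trans (Nat.le_succ _))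
      have h3 := h2 _ hz
      rw [ql, encode_ofNat_list] at h3
      exact h3.trans_le (((Nat.unpair_right_le _).trans (Nat.unpair_right_le _)).trans hq'.le)
    have : e'.getD z 0 = σ.symm (e z) := by
      simp [e', List.getD_eq_getElem?_getD, hzN]
    simp only [Function.comp_apply, this, Equiv.apply_symm_apply]
  rw [hmap]

/-- witnesses -/
def wl (v : ℕ) : List (List ℕ × List ℕ) :=
  Denumerable.ofNat (List (List ℕ × List ℕ)) v.unpair.2

theorem wl_primrec : Primrec wl := (Primrec.ofNat (List (List ℕ × List ℕ))).comp psnd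

/-- the search predicate -/
def Srch (ℓ k : ℕ) (N : ℕ → ℕ) (n2 n3 w0 : ℕ) (σ₀ : List ℕ) (m v : ℕ) (p : List ℕ) : Prop :=
  n3 ≤ v.unpair.1.unpair.1 ∧ n2 ≤ v.unpair.1.unpair.1 ∧ m + 1 ≤ v.unpair.1.unpair.1 ∧
  (wl v).length = w0 ∧ ∀ i < w0,
    (∀ j < i, ((wl v).getD i ([], [])).1 ≠ ((wl v).getD j ([], [])).1) ∧
    ((wl v).getD i ([], [])).1.take n2 = σ₀ ∧
    ((wl v).getD i ([], [])).1.take (m + 1) = ((wl v).getD 0 ([], [])).1.take (m + 1) ∧
    Chk ℓ k N v.unpair.1.unpair.1 ((wl v).getD i ([], [])).1 ((wl v).getD i ([], [])).2 p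

theorem Srch_primrec (ℓ k : ℕ) {N : ℕ → ℕ} (hN : Primrec N) (n2 n3 w0 : ℕ) (σ₀ : List ℕ) :
    PrimrecPred fun x : (ℕ × ℕ) × List ℕ => Srch ℓ k N n2 n3 w0 σ₀ x.1.1 x.1.2 x.2 := by
  have vn : Primrec fun x : (ℕ × ℕ) × List ℕ => x.1.2.unpair.1.unpair.1 :=
    pfst.comp (pfst.comp (Primrec.snd.comp Primrec.fst))
  have vw : Primrec fun x : (ℕ × ℕ) × List ℕ => wl x.1.2 :=
    wl_primrec.comp (Primrec.snd.comp Primrec.fst)
  have vm : Primrec fun x : (ℕ × ℕ) × List ℕ => x.1.1 + 1 :=
    Primrec.succ.comp (Primrec.fst.comp Primrec.fst)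
  have gD : Primrec₂ fun (l : List (List ℕ × List ℕ)) (i : ℕ) => l.getD i ([], []) :=
    Primrec.list_getD ([], [])
  refine PrimrecPred.and (Primrec.nat_le.comp (Primrec.const _) vn) ?_
  refine PrimrecPred.and (Primrec.nat_le.comp (Primrec.const _) vn) ?_
  refine PrimrecPred.and (Primrec.nat_le.comp vm vn) ?_
  refine PrimrecPred.and (Primrec.eq.comp (Primrec.list_length.comp vw) (Primrec.const _)) ?_
  refine ball (Primrec.const w0) ?_
  have vi : Primrec fun x : ((ℕ × ℕ) × List ℕ) × ℕ => (wl x.1.1.2).getD x.2 ([], []) :=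
    gD.comp (vw.comp Primrec.fst) Primrec.snd
  have v0 : Primrec fun x : ((ℕ × ℕ) × List ℕ) × ℕ => (wl x.1.1.2).getD 0 ([], []) :=
    gD.comp (vw.comp Primrec.fst) (Primrec.const 0)
  refine PrimrecPred.and ?_ (PrimrecPred.and ?_ (PrimrecPred.and ?_ ?_))
  · refine ball Primrec.snd ?_
    refine PrimrecPred.not ?_
    exact Primrec.eq.comp (Primrec.fst.comp (vi.comp Primrec.fst))
      (Primrec.fst.comp (gD.comp (vw.comp (Primrec.fst.comp Primrec.fst)) Primrec.snd))
  · exact Primrec.eq.comp (Primrec.list_take.comp (Primrec.const n2) (Primrec.fst.comp vi))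
      (Primrec.const σ₀)
  · exact Primrec.eq.comp (Primrec.list_take.comp (vm.comp Primrec.fst) (Primrec.fst.comp vi))
      (Primrec.list_take.comp (vm.comp Primrec.fst) (Primrec.fst.comp v0))
  · exact Chk_primrec ℓ k hN (vn.comp Primrec.fst) (Primrec.fst.comp vi) (Primrec.snd.comp vi)
      (Primrec.snd.comp Primrec.fst)

theorem decode {M : Type} (iM : L.Structure M) (ℓ k : ℕ) (hℓ : 0 < ℓ) (ρ : Rep k → M)
    (hsurj : ∀ x, ∃ r : Rep k, r.1 < ℓ ∧ ρ r = x)
    (hinv : ∀ κ s n (x y : Fin n → Rep k), PatF x y →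
        (At L iM κ s (List.ofFn (ρ ∘ x)) ↔ At L iM κ s (List.ofFn (ρ ∘ y))))
    (A : L.Structure ℕ) (σ : ℕ ≃ M) (hσ : Iso A iM σ) :
    TuringReducible (PFun.lift (Xc (At L iM) ρ ℓ))
      (PFun.lift ((diag L A).indicator (fun _ => 1))) := by
  classical
  obtain ⟨b, N, hN, hwid⟩ := width ℓ k hℓ
  have hwid' := hwid M (At L iM) ρ hsurj hinv
  set X := Xc (At L iM) ρ ℓ with hX
  have hU := fun n => U_pre (ℓ := ℓ) hinv N n
  obtain ⟨n2, n3, w0, hw0, hw1, hw2⟩ := exists_width (UU ℓ k N (At L iM)) X hU b hwid'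
  refine recursiveIn_of_search _ _ (Srch ℓ k N n2 n3 w0 (pre X n2))
    (fun m v => ((wl v).getD 0 ([], [])).1.getD m 0)
    (Srch_primrec ℓ k hN n2 n3 w0 _) ?_ ?_ ?_
  · have gD : Primrec₂ fun (l : List (List ℕ × List ℕ)) (i : ℕ) => l.getD i ([], []) :=
      Primrec.list_getD ([], [])
    exact pgetD.comp (Primrec.fst.comp (gD.comp (wl_primrec.comp Primrec.snd) (Primrec.const 0)))
      Primrec.fst
  · intro m
    obtain ⟨n, hn, S, hSc, hS⟩ := hw2 (max (m + 1) n2) (max n3 (max n2 (m + 1)))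
    have hch : ∀ w : List ℕ, ∃ (e : List ℕ) (b : ℕ), w ∈ S → ∀ v, b ≤ v →
        Chk ℓ k N n w e (pre ((diag L A).indicator (fun _ => 1)) v) := by
      intro w
      by_cases hw : w ∈ S
      · obtain ⟨e, b, h⟩ := Chk_of_UU hσ (hS w hw).1
        exact ⟨e, b, fun _ => h⟩
      · exact ⟨[], 0, fun h => absurd h hw⟩
    choose e bb hch using hch
    let Lst : List (List ℕ × List ℕ) := S.toList.map fun w => (w, e w)
    let pad : ℕ := ∑ w ∈ S, bb w
    let v : ℕ := Nat.pair (Nat.pair n pad) (encode Lst)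
    have hvn : v.unpair.1.unpair.1 = n := by simp [v]
    have hvl : wl v = Lst := by simp [wl, v]
    have hLlen : Lst.length = w0 := by simp [Lst, hSc]
    have hpad : pad ≤ v := (Nat.right_le_pair n pad).trans (Nat.left_le_pair _ _)
    have hLst : ∀ i < w0, ∃ w ∈ S, Lst.getD i ([], []) = (w, e w) ∧
        ∃ h : i < S.toList.length, w = S.toList[i] := by
      intro i hi
      have h1 : i < S.toList.length := by rw [Finset.length_toList, hSc]; exact hi
      refine ⟨S.toList[i], Finset.mem_toList.1 (List.getElem_mem h1), ?_, h1, rfl⟩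
      have h2 : i < Lst.length := by rw [hLlen]; exact hi
      rw [List.getD_eq_getElem _ _ h2]
      simp [Lst]
    have hnd : S.toList.Nodup := S.nodup_toList
    refine ⟨v, ?_, ?_, ?_, ?_, ?_⟩
    · rw [hvn]; exact (le_max_left _ _).trans hn
    · rw [hvn]; exact ((le_max_left _ _).trans (le_max_right _ _)).trans hn
    · rw [hvn]; exact ((le_max_right _ _).trans (le_max_right _ _)).trans hn
    · rw [hvl, hLlen]
    · intro i hi
      rw [hvn, hvl]
      obtain ⟨w, hw, hwe, hi1, hwi⟩ := hLst i hi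
      obtain ⟨u, hu, hue, _, _⟩ := hLst 0 (by omega)
      rw [hwe, hue]
      have t1 : ∀ w ∈ S, w.take (m + 1) = pre X (m + 1) := by
        intro w hw
        have := (hS w hw).2
        have h2 := congrArg (List.take (m + 1)) this
        rw [List.take_take, Nat.min_eq_left (le_max_left _ _),
          pre_take X (le_max_left _ _)] at h2
        exact h2
      have t2 : ∀ w ∈ S, w.take n2 = pre X n2 := by
        intro w hw
        have := (hS w hw).2
        have h2 := congrArg (List.take n2) this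
        rw [List.take_take, Nat.min_eq_left (le_max_right _ _),
          pre_take X (le_max_right _ _)] at h2
        exact h2
      refine ⟨?_, t2 w hw, by rw [t1 w hw, t1 u hu], ?_⟩
      · intro j hj
        obtain ⟨w', _, hwe', hj1, hwj⟩ := hLst j (hj.trans hi)
        rw [hwe']
        simp only
        rw [hwi, hwj]
        intro heq
        exact absurd (hnd.getElem_inj_iff.1 heq) (by omega)
      · refine hch w hw v (le_trans ?_ hpad)
        exact single_le_sum (f := bb) (fun _ _ => Nat.zero_le _) hw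
  · intro m v ⟨h1, h2, h3, h4, h5⟩
    set n := v.unpair.1.unpair.1 with hn
    let S : Finset (List ℕ) := (Finset.range w0).image fun i => ((wl v).getD i ([], [])).1
    have hinj : Set.InjOn (fun i => ((wl v).getD i ([], [])).1) (Finset.range w0 : Set ℕ) := by
      intro i hi j hj hij
      have hi' : i < w0 := by simpa using hi
      have hj' : j < w0 := by simpa using hj
      rcases lt_trichotomy i j with h | h | h
      · exact absurd hij.symm ((h5 j hj').1 i h)
      · exact h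
      · exact absurd hij ((h5 i hi').1 j h)
    have hSc : S.card = w0 := by
      simp only [S]
      rw [card_image_of_injOn hinj, card_range]
    have hd := decode_width (UU ℓ k N (At L iM)) X hU hw1 (n := n) (m := m + 1) h1 h2 h3 S hSc
      (by
        intro w hw
        obtain ⟨i, hi, rfl⟩ := mem_image.1 hw
        have h6 := h5 i (mem_range.1 hi)
        exact ⟨UU_of_Chk hσ h6.2.2.2, h6.2.1⟩) (((wl v).getD 0 ([], [])).1.take (m + 1))
      (by
        intro w hw
        obtain ⟨i, hi, rfl⟩ := mem_image.1 hw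
        exact (h5 i (mem_range.1 hi)).2.2.1)
    have h6 : ((wl v).getD 0 ([], [])).1.getD m 0 =
        (((wl v).getD 0 ([], [])).1.take (m + 1)).getD m 0 := by
      simp [List.getD_eq_getElem?_getD, List.getElem?_take]
    rw [h6, hd, pre_getD _ (Nat.lt_succ_self m)]

end

end Pool.Agent.H78.DS
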