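import Mathlib

/-!
# Atomic diagrams of structures on `ℕ`, interpretability in `(ℚ, <)`
-/

set_option autoImplicit false

namespace Pool.Agent.H78.DS

open FirstOrder FirstOrder.Language

/-- the atomic diagram of an `L`-structure `A` with universe `ℕ`, coded by a set of natural numbers
(the same coding as in the statement of the problem) -/
def diag (L : FirstOrder.Language.{0, 0}) [Primcodable (Σ n, L.Functions n)]
    [Primcodable (Σ n, L.Relations n)] (A : L.Structure ℕ) : Set ℕ :=
  {k : ℕ |
    (∃ (n : ℕ) (f : L.Functions n) (xs : Fin n → ℕ),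
      k = Nat.pair 0 (Nat.pair
        (Encodable.encode (Sigma.mk n f : Σ m, L.Functions m))
        (Nat.pair (Encodable.encode (List.ofFn xs))
          (@Structure.funMap L ℕ A n f xs)))) ∨
    (∃ (n : ℕ) (r : L.Relations n) (xs : Fin n → ℕ),
      k = Nat.pair 1 (Nat.pair
        (Encodable.encode (Sigma.mk n r : Σ m, L.Relations m))
        (Encodable.encode (List.ofFn xs))) ∧
      @Structure.RelMap L ℕ A n r xs)}

/-- The structure `M` is interpretable in `(ℚ, <)` with parameters: for some `k` and some finite
set `C` of rationals there is a surjection `ρ : ℚᵏ → M` such that every order automorphism of `ℚ`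
fixing `C` pointwise induces, through `ρ`, an automorphism of `M`. -/
def RatInterpretable (L : FirstOrder.Language.{0, 0}) (M : Type) [L.Structure M] : Prop :=
  ∃ (k : ℕ) (C : Finset ℚ) (ρ : (Fin k → ℚ) → M), Function.Surjective ρ ∧
    ∀ e : ℚ ≃o ℚ, (∀ c ∈ C, e c = c) → ∃ σ : M ≃[L] M, ∀ x, σ (ρ x) = ρ (e ∘ x)

end Pool.Agent.H78.DS
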