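import Pool.Agent.H78.DS.Oracle

/-!
# Levels of bounded width: counting lemma
-/

set_option autoImplicit false

namespace Pool.Agent.H78.DS

open Finset

theorem pre_take (X : ℕ → ℕ) {m n : ℕ} (h : m ≤ n) : (pre X n).take m = pre X m := by
  simp [pre, ← List.map_take, List.take_range, Nat.min_eq_left h]

/-- infinitely many levels carry `c` elements above `X ↾ m` -/
def Gd (U : ℕ → List ℕ → Prop) (X : ℕ → ℕ) (c m : ℕ) : Prop :=
  ∀ N, ∃ n, N ≤ n ∧ ∃ S : Finset (List ℕ), S.card = c ∧ ∀ w ∈ S, U n w ∧ w.take m = pre X m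

theorem exists_width (U : ℕ → List ℕ → Prop) (X : ℕ → ℕ) (hX : ∀ n, U n (pre X n)) (b : ℕ)
    (hb : ∀ n, ∀ S : Finset (List ℕ), (∀ w ∈ S, U n w) → S.card ≤ b) :
    ∃ n2 n3 w0, 1 ≤ w0 ∧
      (∀ n, n3 ≤ n → ∀ S : Finset (List ℕ), (∀ w ∈ S, U n w ∧ w.take n2 = pre X n2) →
        S.card ≤ w0) ∧
      (∀ m, Gd U X w0 m) := by
  classical
  have h1 : ∀ m, Gd U X 1 m := by
    intro m N
    refine ⟨max m N, le_max_right _ _, {pre X (max m N)}, by simp, ?_⟩
    intro w hw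
    rw [mem_singleton.1 hw]
    exact ⟨hX _, pre_take X (le_max_left _ _)⟩
  have hb1 : ¬ ∀ m, Gd U X (b + 1) m := by
    intro h
    obtain ⟨n, _, S, hS, hS2⟩ := h 0 0
    have := hb n S (fun w hw => (hS2 w hw).1)
    omega
  have hex : ∃ c, ¬ ∀ m, Gd U X (c + 1) m := ⟨b, hb1⟩
  set w0 := Nat.find hex with hw0
  have hw1 : 1 ≤ w0 := by
    rw [hw0, Nat.one_le_iff_ne_zero]
    intro h0
    have := Nat.find_spec hex
    rw [h0] at this
    exact this h1
  have hA : ∀ m, Gd U X w0 m := by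
    have := Nat.find_min hex (m := w0 - 1) (by omega)
    rw [not_not] at this
    intro m
    have h := this m
    rwa [Nat.sub_add_cancel hw1] at h
  have hn := Nat.find_spec hex
  rw [← hw0] at hn
  push Not at hn
  obtain ⟨n2, hn2⟩ := hn
  unfold Gd at hn2
  push Not at hn2
  obtain ⟨n3, hn3⟩ := hn2
  refine ⟨n2, n3, w0, hw1, ?_, hA⟩
  intro n hn S hS
  by_contra hlt
  obtain ⟨S', hS', hc⟩ := exists_subset_card_eq (s := S) (n := w0 + 1) (by omega)
  obtain ⟨w, hw, hw2⟩ := hn3 n hn S' hc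
  exact hw2 (hS w (hS' hw)).1 (hS w (hS' hw)).2

theorem decode_width (U : ℕ → List ℕ → Prop) (X : ℕ → ℕ) (hX : ∀ n, U n (pre X n))
    {n2 n3 w0 : ℕ}
    (h3 : ∀ n, n3 ≤ n → ∀ S : Finset (List ℕ), (∀ w ∈ S, U n w ∧ w.take n2 = pre X n2) →
        S.card ≤ w0) {n m : ℕ} (hn3 : n3 ≤ n) (hn2 : n2 ≤ n) (hm : m ≤ n)
    (S : Finset (List ℕ)) (hS : S.card = w0)
    (hS1 : ∀ w ∈ S, U n w ∧ w.take n2 = pre X n2) (τ : List ℕ)
    (hS2 : ∀ w ∈ S, w.take m = τ) : τ = pre X m := by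
  classical
  have hmem : pre X n ∈ S := by
    by_contra hne
    have := h3 n hn3 (insert (pre X n) S) (by
      intro w hw
      rcases mem_insert.1 hw with rfl | hw
      · exact ⟨hX n, pre_take X hn2⟩
      · exact hS1 w hw)
    rw [card_insert_of_notMem hne] at this
    omega
  rw [← hS2 _ hmem, pre_take X hm]

end Pool.Agent.H78.DS
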