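import Mathlib

/-!
# Primitive recursive predicates: small toolbox, names of tuples of rationals
-/

set_option autoImplicit false

namespace Pool.Agent.H78.DS

open Encodable

section toolbox

variable {α : Type*} [Primcodable α]

theorem ball {P : α → ℕ → Prop} {n : α → ℕ} (hn : Primrec n)
    (hP : PrimrecPred fun p : α × ℕ => P p.1 p.2) :
    PrimrecPred fun a => ∀ x < n a, P a x := by
  have h : PrimrecRel fun (x : ℕ) (a : α) => P a x :=
    hP.comp (f := fun p : ℕ × α => (p.2, p.1)) (Primrec.snd.pair Primrec.fst)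
  exact ((PrimrecRel.forall_mem_list h).comp (Primrec.list_range.comp hn) Primrec.id).of_eq
    (fun a => by simp)

theorem bex {P : α → ℕ → Prop} {n : α → ℕ} (hn : Primrec n)
    (hP : PrimrecPred fun p : α × ℕ => P p.1 p.2) :
    PrimrecPred fun a => ∃ x < n a, P a x := by
  have h : PrimrecRel fun (x : ℕ) (a : α) => P a x :=
    hP.comp (f := fun p : ℕ × α => (p.2, p.1)) (Primrec.snd.pair Primrec.fst)
  exact ((PrimrecRel.exists_mem_list h).comp (Primrec.list_range.comp hn) Primrec.id).of_eq
    (fun a => by simp)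

theorem pimp {P Q : α → Prop} (hP : PrimrecPred P) (hQ : PrimrecPred Q) :
    PrimrecPred fun a => P a → Q a :=
  (hP.not.or hQ).of_eq (fun a => by tauto)

theorem piff {P Q : α → Prop} (hP : PrimrecPred P) (hQ : PrimrecPred Q) :
    PrimrecPred fun a => (P a ↔ Q a) :=
  ((pimp hP hQ).and (pimp hQ hP)).of_eq (fun a => by tauto)

theorem pfst : Primrec fun x : ℕ => x.unpair.1 := Primrec.fst.comp Primrec.unpair

theorem psnd : Primrec fun x : ℕ => x.unpair.2 := Primrec.snd.comp Primrec.unpair

theorem pgetD : Primrec₂ fun (l : List ℕ) (i : ℕ) => l.getD i 0 := Primrec.list_getD 0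

end toolbox

/-! ### coordinates of a name -/

/-- the `j`-th coordinate of the name `z` -/
def co (z j : ℕ) : ℕ := (((fun x : ℕ => x.unpair.2)^[j]) z).unpair.1

theorem co_primrec : Primrec₂ co :=
  pfst.comp (Primrec.nat_iterate Primrec.snd Primrec.fst (psnd.comp Primrec.snd).to₂)

/-- the name with given coordinates -/
def nm : List ℕ → ℕ
  | [] => 0
  | x :: xs => Nat.pair x (nm xs)

theorem co_nm (l : List ℕ) (j : ℕ) : co (nm l) j = l.getD j 0 := by
  induction l generalizing j with
  | nil =>
    have h : ∀ j : ℕ, ((fun x : ℕ => x.unpair.2)^[j]) 0 = 0 := by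
      intro j
      induction j with
      | zero => rfl
      | succ j ih => rw [Function.iterate_succ_apply']; rw [ih]; simp
    simp [co, nm, h]
  | cons x xs ih =>
    cases j with
    | zero => simp [co, nm]
    | succ j =>
      have := ih j
      simp only [co, nm, Function.iterate_succ_apply, Nat.unpair_pair, List.getD_cons_succ] at this ⊢
      exact this

/-! ### codes of rationals -/

/-- the rational with code `u` -/
def rat (u : ℕ) : ℚ := ((u.unpair.1 : ℚ) - u.unpair.2.unpair.1) / (u.unpair.2.unpair.2 + 1)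

theorem rat_surj (x : ℚ) : ∃ u, rat u = x := by
  have hd : ((x.den - 1 : ℕ) : ℚ) + 1 = x.den := by
    have := x.den_pos
    have h : x.den - 1 + 1 = x.den := by omega
    exact_mod_cast h
  refine ⟨Nat.pair x.num.toNat (Nat.pair (-x.num).toNat (x.den - 1)), ?_⟩
  simp only [rat, Nat.unpair_pair, hd]
  have h : ((x.num.toNat : ℚ) - ((-x.num).toNat : ℚ)) = x.num := by
    have : (x.num.toNat : ℤ) - ((-x.num).toNat : ℤ) = x.num := by omega
    exact_mod_cast this
  rw [h, Rat.num_div_den]

/-- the code of a natural number -/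
def natc (h : ℕ) : ℕ := Nat.pair h 0

theorem rat_natc (h : ℕ) : rat (natc h) = h := by
  simp [rat, natc]

/-- comparison of codes of rationals -/
def ltq (u v : ℕ) : Prop :=
  u.unpair.1 * (v.unpair.2.unpair.2 + 1) + v.unpair.2.unpair.1 * (u.unpair.2.unpair.2 + 1) <
    v.unpair.1 * (u.unpair.2.unpair.2 + 1) + u.unpair.2.unpair.1 * (v.unpair.2.unpair.2 + 1)

theorem ltq_iff (u v : ℕ) : ltq u v ↔ rat u < rat v := by
  unfold ltq rat
  rw [div_lt_div_iff₀ (by positivity) (by positivity)]
  rw [← @Nat.cast_lt ℚ]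
  push_cast
  constructor <;> intro h <;> nlinarith

theorem ltq_primrec : PrimrecRel ltq := by
  have a1 : Primrec fun p : ℕ × ℕ => p.1.unpair.1 := pfst.comp Primrec.fst
  have b1 : Primrec fun p : ℕ × ℕ => p.1.unpair.2.unpair.1 := pfst.comp (psnd.comp Primrec.fst)
  have c1 : Primrec fun p : ℕ × ℕ => p.1.unpair.2.unpair.2 + 1 :=
    Primrec.succ.comp (psnd.comp (psnd.comp Primrec.fst))
  have a2 : Primrec fun p : ℕ × ℕ => p.2.unpair.1 := pfst.comp Primrec.snd
  have b2 : Primrec fun p : ℕ × ℕ => p.2.unpair.2.unpair.1 := pfst.comp (psnd.comp Primrec.snd)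
  have c2 : Primrec fun p : ℕ × ℕ => p.2.unpair.2.unpair.2 + 1 :=
    Primrec.succ.comp (psnd.comp (psnd.comp Primrec.snd))
  exact Primrec.nat_lt.comp
    (Primrec.nat_add.comp (Primrec.nat_mul.comp a1 c2) (Primrec.nat_mul.comp b2 c1))
    (Primrec.nat_add.comp (Primrec.nat_mul.comp a2 c1) (Primrec.nat_mul.comp b1 c2))

/-! ### patterns of lists of names -/

/-- the two lists of names have the same labels and the same order pattern of coordinates -/
def Pat (ℓ k : ℕ) (l l' : List ℕ) : Prop :=
  l.length = l'.length ∧ ∀ i < l.length, ∀ i' < l.length,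
    co (l.getD i 0) 0 % ℓ = co (l'.getD i 0) 0 % ℓ ∧
    ∀ j < k, ∀ j' < k, (ltq (co (l.getD i 0) (j + 1)) (co (l.getD i' 0) (j' + 1)) ↔
      ltq (co (l'.getD i 0) (j + 1)) (co (l'.getD i' 0) (j' + 1)))

theorem pat_primrec (ℓ k : ℕ) : PrimrecPred fun p : List ℕ × List ℕ => Pat ℓ k p.1 p.2 := by
  refine (Primrec.eq.comp (Primrec.list_length.comp Primrec.fst)
    (Primrec.list_length.comp Primrec.snd)).and ?_
  refine ball (Primrec.list_length.comp Primrec.fst) ?_
  refine ball (Primrec.list_length.comp (Primrec.fst.comp Primrec.fst)) ?_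
  refine PrimrecPred.and ?_ ?_
  · refine Primrec.eq.comp ?_ ?_
    · exact Primrec.nat_mod.comp (co_primrec.comp (pgetD.comp
        (Primrec.fst.comp (Primrec.fst.comp Primrec.fst)) (Primrec.snd.comp Primrec.fst))
        (Primrec.const 0)) (Primrec.const ℓ)
    · exact Primrec.nat_mod.comp (co_primrec.comp (pgetD.comp
        (Primrec.snd.comp (Primrec.fst.comp Primrec.fst)) (Primrec.snd.comp Primrec.fst))
        (Primrec.const 0)) (Primrec.const ℓ)
  · refine ball (Primrec.const k) ?_
    refine ball (Primrec.const k) ?_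
    -- context: ((((l, l'), i), i'), j), j'
    have vl : Primrec fun p : ((((List ℕ × List ℕ) × ℕ) × ℕ) × ℕ) × ℕ => p.1.1.1.1.1 :=
      Primrec.fst.comp (Primrec.fst.comp (Primrec.fst.comp (Primrec.fst.comp Primrec.fst)))
    have vl' : Primrec fun p : ((((List ℕ × List ℕ) × ℕ) × ℕ) × ℕ) × ℕ => p.1.1.1.1.2 :=
      Primrec.snd.comp (Primrec.fst.comp (Primrec.fst.comp (Primrec.fst.comp Primrec.fst)))
    have vi : Primrec fun p : ((((List ℕ × List ℕ) × ℕ) × ℕ) × ℕ) × ℕ => p.1.1.1.2 :=
      Primrec.snd.comp (Primrec.fst.comp (Primrec.fst.comp Primrec.fst))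
    have vi' : Primrec fun p : ((((List ℕ × List ℕ) × ℕ) × ℕ) × ℕ) × ℕ => p.1.1.2 :=
      Primrec.snd.comp (Primrec.fst.comp Primrec.fst)
    have vj : Primrec fun p : ((((List ℕ × List ℕ) × ℕ) × ℕ) × ℕ) × ℕ => p.1.2 + 1 :=
      Primrec.succ.comp (Primrec.snd.comp Primrec.fst)
    have vj' : Primrec fun p : ((((List ℕ × List ℕ) × ℕ) × ℕ) × ℕ) × ℕ => p.2 + 1 :=
      Primrec.succ.comp Primrec.snd
    refine piff ?_ ?_
    · exact ltq_primrec.comp (co_primrec.comp (pgetD.comp vl vi) vj)
        (co_primrec.comp (pgetD.comp vl vi') vj')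
    · exact ltq_primrec.comp (co_primrec.comp (pgetD.comp vl' vi) vj)
        (co_primrec.comp (pgetD.comp vl' vi') vj')

/-! ### bounds for codes -/

theorem pair_mono {a b c d : ℕ} (h1 : a ≤ c) (h2 : b ≤ d) : Nat.pair a b ≤ Nat.pair c d := by
  rcases Nat.lt_or_ge a c with h | h
  · rcases Nat.lt_or_ge b d with h' | h'
    · exact ((Nat.pair_lt_pair_left b h).trans (Nat.pair_lt_pair_right c h')).le
    · have : b = d := le_antisymm h2 h'
      subst this
      exact (Nat.pair_lt_pair_left b h).le
  · have : a = c := le_antisymm h1 h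
    subst this
    rcases Nat.lt_or_ge b d with h' | h'
    · exact (Nat.pair_lt_pair_right a h').le
    · have : b = d := le_antisymm h2 h'
      subst this
      exact le_rfl

/-- bound for the code of a list of length `≤ n` with entries `≤ B` -/
def encB (B n : ℕ) : ℕ := Nat.rec 0 (fun _ r => Nat.succ (Nat.pair B r)) n

theorem encB_primrec : Primrec₂ encB := by
  refine Primrec.nat_rec (f := fun _ : ℕ => 0) (g := fun (B : ℕ) (p : ℕ × ℕ) =>
    Nat.succ (Nat.pair B p.2)) (Primrec.const 0) ?_
  exact Primrec.succ.comp (Primrec₂.natPair.comp Primrec.fst (Primrec.snd.comp Primrec.snd))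

theorem encode_le_encB (B : ℕ) : ∀ (n : ℕ) (l : List ℕ), l.length ≤ n → (∀ x ∈ l, x ≤ B) →
    encode l ≤ encB B n := by
  intro n
  induction n with
  | zero =>
    intro l hl _
    rw [List.length_eq_zero_iff.1 (Nat.le_zero.1 hl)]
    simp
  | succ n ih =>
    intro l hl hB
    cases l with
    | nil => simp
    | cons x xs =>
      have h := ih xs (by simpa using hl) (fun y hy => hB y (List.mem_cons_of_mem _ hy))
      have hx := hB x List.mem_cons_self
      rw [Encodable.encode_list_cons]
      simp only [encB, Nat.succ_eq_add_one]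
      have := pair_mono (a := x) (b := encode xs) hx h
      simpa [encB] using this

theorem nm_le_encB (B : ℕ) : ∀ (n : ℕ) (l : List ℕ), l.length ≤ n → (∀ x ∈ l, x ≤ B) →
    nm l ≤ encB B n := by
  intro n
  induction n with
  | zero =>
    intro l hl _
    rw [List.length_eq_zero_iff.1 (Nat.le_zero.1 hl)]
    simp [nm]
  | succ n ih =>
    intro l hl hB
    cases l with
    | nil => simp [nm]
    | cons x xs =>
      have h := ih xs (by simpa using hl) (fun y hy => hB y (List.mem_cons_of_mem _ hy))
      have hx := hB x List.mem_cons_self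
      have := pair_mono (a := x) (b := nm xs) hx h
      simp only [nm, encB]
      simp only [encB] at this
      omega

theorem length_le_encode (l : List ℕ) : l.length ≤ encode l := by
  induction l with
  | nil => simp
  | cons x xs ih =>
    rw [Encodable.encode_list_cons]
    have := Nat.right_le_pair (encode x) (encode xs)
    simp only [List.length_cons, Nat.succ_eq_add_one]
    omega

end Pool.Agent.H78.DS
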