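import Pool.Agent.H78.DS.Ramsey
import Pool.Agent.H78.DS.Prim

/-!
# Only boundedly many pullbacks
-/

set_option autoImplicit false

namespace Pool.Agent.H78.DS

open Finset Encodable

/-- representatives: a label and `k` rationals -/
abbrev Rep (k : ℕ) := ℕ × (Fin k → ℚ)

/-- same labels and same order pattern -/
def PatF {k n : ℕ} (x y : Fin n → Rep k) : Prop :=
  ∀ i i', (x i).1 = (y i).1 ∧ ∀ j j', ((x i).2 j < (x i').2 j' ↔ (y i).2 j < (y i').2 j')

/-- the name with label `a` and natural coordinates `u` -/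
def mkname {k : ℕ} (a : ℕ) (u : Fin k → ℕ) : ℕ := nm (a :: List.ofFn (fun j => natc (u j)))

theorem co_mkname_zero {k : ℕ} (a : ℕ) (u : Fin k → ℕ) : co (mkname a u) 0 = a := by
  simp [mkname, co_nm]

theorem co_mkname_succ {k : ℕ} (a : ℕ) (u : Fin k → ℕ) (j : Fin k) :
    co (mkname a u) (j + 1) = natc (u j) := by
  simp [mkname, co_nm, List.getD_cons_succ, List.getD_eq_getElem?_getD, List.getElem?_ofFn, j.2]

/-- the colours -/
abbrev Col (ℓ k : ℕ) := (Fin ℓ × (Fin k → Fin (2 * k))) → (Fin ℓ × (Fin k → Fin (2 * k))) →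
  (Fin ℓ × (Fin k → Fin k → Bool))

/-- behaviour of `E` on the names with coordinates in the range of `f` -/
noncomputable def dat {ℓ k : ℕ} (E : ℕ → Rep k) (hE : ∀ z, (E z).1 < ℓ) (f : Fin (2 * k) → ℕ) :
    Col ℓ k := fun A A' =>
  (⟨(E (mkname A.1 (f ∘ A.2))).1, hE _⟩, fun j j' =>
    decide ((E (mkname A.1 (f ∘ A.2))).2 j < (E (mkname A'.1 (f ∘ A'.2))).2 j'))

theorem homog {ℓ k : ℕ} {R : ℕ → ℕ}
    (hR : ∀ (t : ℕ) (S₀ : Finset ℕ), R t ≤ S₀.card → ∀ c : Finset ℕ → Col ℓ k,
      ∃ S ⊆ S₀, S.card = t ∧ ∃ κ, ∀ F ⊆ S, F.card = 2 * k → c F = κ)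
    (E : ℕ → Rep k) (hE : ∀ z, (E z).1 < ℓ) (t : ℕ) :
    ∃ g : Fin t → ℕ, StrictMono g ∧ (∀ i, g i < R t) ∧ ∃ κ : Col ℓ k,
      ∀ f : Fin (2 * k) → Fin t, StrictMono f → dat E hE (g ∘ f) = κ := by
  classical
  have hd : Nonempty (Col ℓ k) :=
    ⟨fun A _ => (A.1, fun _ _ => true)⟩
  obtain ⟨S, hS, hc, κ, hκ⟩ := hR t (range (R t)) (by simp)
    (fun F => if h : F.card = 2 * k then dat E hE (F.orderEmbOfFin h) else Classical.choice hd)
  refine ⟨S.orderEmbOfFin hc, (S.orderEmbOfFin hc).strictMono, ?_, κ, ?_⟩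
  · intro i
    exact mem_range.1 (hS (S.orderEmbOfFin_mem hc i))
  · intro f hf
    have hg : StrictMono (fun i => (S.orderEmbOfFin hc) (f i)) :=
      (S.orderEmbOfFin hc).strictMono.comp hf
    set F : Finset ℕ := univ.image (fun i => (S.orderEmbOfFin hc) (f i)) with hF
    have hFc : F.card = 2 * k := by
      rw [hF, card_image_of_injective _ hg.injective]; simp
    have hFS : F ⊆ S := by
      intro x hx
      obtain ⟨i, _, rfl⟩ := mem_image.1 hx
      exact S.orderEmbOfFin_mem hc _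
    have h1 := hκ F hFS hFc
    rw [dif_pos hFc] at h1
    rw [← h1]
    congr 1
    exact orderEmbOfFin_unique hFc (fun i => mem_image_of_mem _ (mem_univ i)) hg

theorem exists_common {k m t : ℕ} (h : m + 2 * k ≤ t) (u v : Fin k → ℕ) (hu : ∀ j, u j < m)
    (hv : ∀ j, v j < m) :
    ∃ f : Fin (2 * k) → Fin t, StrictMono f ∧ ∃ a a' : Fin k → Fin (2 * k),
      (∀ j, (f (a j) : ℕ) = u j) ∧ (∀ j, (f (a' j) : ℕ) = v j) := by
  classical
  let u' : Fin k → Fin t := fun j => ⟨u j, by have := hu j; omega⟩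
  let v' : Fin k → Fin t := fun j => ⟨v j, by have := hv j; omega⟩
  set Z : Finset (Fin t) := univ.image u' ∪ univ.image v' with hZ
  have hZc : Z.card ≤ 2 * k := by
    refine (card_union_le _ _).trans ?_
    have h1 := card_image_le (s := (univ : Finset (Fin k))) (f := u')
    have h2 := card_image_le (s := (univ : Finset (Fin k))) (f := v')
    simp only [card_univ, Fintype.card_fin] at h1 h2
    omega
  obtain ⟨Z', hZZ, _, hZc'⟩ := exists_subsuperset_card_eq (s := Z) (t := univ) (n := 2 * k)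
    (subset_univ _) hZc (by rw [card_univ, Fintype.card_fin]; omega)
  have hr : ∀ x ∈ Z', ∃ i, Z'.orderEmbOfFin hZc' i = x := by
    intro x hx
    have : x ∈ Set.range (Z'.orderEmbOfFin hZc') := by
      rw [range_orderEmbOfFin]; exact hx
    exact this
  have ha : ∀ j, ∃ i, Z'.orderEmbOfFin hZc' i = u' j := fun j =>
    hr _ (hZZ (mem_union_left _ (mem_image_of_mem _ (mem_univ j))))
  have ha' : ∀ j, ∃ i, Z'.orderEmbOfFin hZc' i = v' j := fun j =>
    hr _ (hZZ (mem_union_right _ (mem_image_of_mem _ (mem_univ j))))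
  choose a ha using ha
  choose a' ha' using ha'
  refine ⟨Z'.orderEmbOfFin hZc', (Z'.orderEmbOfFin hZc').strictMono, a, a', ?_, ?_⟩
  · intro j; rw [ha j]
  · intro j; rw [ha' j]

theorem exists_rank {n k : ℕ} (val : Fin n → Fin k → ℚ) (b : ℕ) (hb : n * k ≤ b) :
    ∃ rk : ℚ → ℕ, (∀ i j, rk (val i j) < b) ∧
      ∀ i j i' j', (val i j < val i' j' ↔ rk (val i j) < rk (val i' j')) := by
  let V : Finset ℚ := univ.image (fun p : Fin n × Fin k => val p.1 p.2)
  have hV : ∀ i j, val i j ∈ V := fun i j => mem_image.2 ⟨(i, j), mem_univ _, rfl⟩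
  have hVc : V.card ≤ b := by
    refine card_image_le.trans ?_
    rw [card_univ, Fintype.card_prod, Fintype.card_fin, Fintype.card_fin]
    exact hb
  have mono : ∀ x ∈ V, ∀ y, x < y → (V.filter (· < x)).card < (V.filter (· < y)).card := by
    intro x hx y hxy
    refine card_lt_card ?_
    rw [ssubset_iff_of_subset]
    · exact ⟨x, by simp [hx, hxy], by simp⟩
    · intro z hz
      rw [mem_filter] at hz ⊢
      exact ⟨hz.1, hz.2.trans hxy⟩
  refine ⟨fun x => (V.filter (· < x)).card, ?_, ?_⟩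
  · intro i j
    refine lt_of_lt_of_le (card_lt_card ?_) hVc
    rw [ssubset_iff_of_subset (filter_subset _ _)]
    exact ⟨val i j, hV i j, by simp⟩
  · intro i j i' j'
    refine ⟨mono _ (hV i j) _, fun h => ?_⟩
    rcases lt_trichotomy (val i j) (val i' j') with h1 | h1 | h1
    · exact h1
    · rw [h1] at h; exact absurd h (lt_irrefl _)
    · exact absurd h (lt_asymm (mono _ (hV i' j') _ h1))

/-- kind of a query -/
def qk (q : ℕ) : ℕ := q.unpair.1
/-- symbol of a query -/
def qs (q : ℕ) : ℕ := q.unpair.2.unpair.1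
/-- list of a query -/
def ql (q : ℕ) : List ℕ := Denumerable.ofNat (List ℕ) q.unpair.2.unpair.2

theorem encode_ofNat_list (n : ℕ) : encode (Denumerable.ofNat (List ℕ) n) = n :=
  Denumerable.encode_ofNat n

theorem ql_length_le (q : ℕ) : (ql q).length ≤ q := by
  have h1 := length_le_encode (ql q)
  rw [ql, encode_ofNat_list] at h1
  exact h1.trans ((Nat.unpair_right_le _).trans (Nat.unpair_right_le _))

/-- `w` is the restriction to `n` of a pullback which is invariant up to `N n` -/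
def UU {M : Type} (ℓ k : ℕ) (N : ℕ → ℕ) (P : ℕ → ℕ → List M → Prop) (n : ℕ) (w : List ℕ) : Prop :=
  w.length = n ∧ (∀ q < n, w.getD q 0 ≤ 1) ∧ ∃ e : ℕ → M, ∀ q < n, ∀ q' < N n,
    qk q = qk q' → qs q = qs q' → Pat ℓ k (ql q) (ql q') →
      (P (qk q') (qs q') ((ql q').map e) ↔ w.getD q 0 = 1)

theorem width (ℓ k : ℕ) (hℓ : 0 < ℓ) : ∃ (b : ℕ) (N : ℕ → ℕ), Primrec N ∧
    ∀ (M : Type) (P : ℕ → ℕ → List M → Prop) (ρ : Rep k → M),
      (∀ x, ∃ r : Rep k, r.1 < ℓ ∧ ρ r = x) →
      (∀ κ s n (x y : Fin n → Rep k), PatF x y →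
        (P κ s (List.ofFn (ρ ∘ x)) ↔ P κ s (List.ofFn (ρ ∘ y)))) →
      ∀ n, ∀ S : Finset (List ℕ), (∀ w ∈ S, UU ℓ k N P n w) → S.card ≤ b := by
  classical
  obtain ⟨R, hRp, hR⟩ := ramsey (Col ℓ k) (2 * k)
  obtain ⟨T, hT, hTe⟩ : ∃ T : ℕ → ℕ, Primrec T ∧ ∀ n, n * k + 2 * k ≤ T n :=
    ⟨fun n => n * k + 2 * k, Primrec.nat_add.comp (Primrec.nat_mul.comp Primrec.id
      (Primrec.const k)) (Primrec.const _), fun n => le_rfl⟩
  obtain ⟨B, hB, hBe⟩ : ∃ B : ℕ → ℕ, Primrec B ∧
      ∀ n, encB (max ℓ (natc (R (T n)))) (k + 1) ≤ B n :=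
    ⟨fun n => encB (max ℓ (natc (R (T n)))) (k + 1),
      encB_primrec.comp (Primrec.nat_max.comp (Primrec.const ℓ)
        (Primrec₂.natPair.comp (hRp.comp hT) (Primrec.const 0))) (Primrec.const _),
      fun n => le_rfl⟩
  obtain ⟨N, hN, hNe⟩ : ∃ N : ℕ → ℕ, Primrec N ∧
      ∀ n, Nat.pair n (Nat.pair n (encB (B n) n)) < N n :=
    ⟨fun n => Nat.pair n (Nat.pair n (encB (B n) n)) + 1,
      Primrec.succ.comp (Primrec₂.natPair.comp Primrec.id
        (Primrec₂.natPair.comp Primrec.id (encB_primrec.comp hB Primrec.id))),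
      fun n => Nat.lt_succ_self _⟩
  refine ⟨Fintype.card (Col ℓ k), N, hN, ?_⟩
  intro M P ρ hρ hinv n S hS
  -- data for each element of `S`
  have hdat : ∀ w : S, ∃ (e : ℕ → M) (E : ℕ → Rep k) (g : Fin (T n) → ℕ) (κ : Col ℓ k)
      (hE : ∀ z, (E z).1 < ℓ),
      (∀ q < n, ∀ q' < N n, qk q = qk q' → qs q = qs q' → Pat ℓ k (ql q) (ql q') →
      (P (qk q') (qs q') ((ql q').map e) ↔ w.1.getD q 0 = 1)) ∧
      (∀ z, ρ (E z) = e z) ∧ StrictMono g ∧ (∀ i, g i < R (T n)) ∧
      (∀ f : Fin (2 * k) → Fin (T n), StrictMono f → dat E hE (g ∘ f) = κ) := by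
    intro w
    obtain ⟨_, _, e, he⟩ := hS w.1 w.2
    choose E hE using fun z => hρ (e z)
    obtain ⟨g, hg1, hg2, κ, hκ⟩ := homog hR E (fun z => (hE z).1) (T n)
    exact ⟨e, E, g, κ, fun z => (hE z).1, he, fun z => (hE z).2, hg1, hg2, hκ⟩
  choose e E g κ hE he heE hg hgR hκ using hdat
  have hinj : Function.Injective κ := by
    intro w1 w2 hw
    have hlen : ∀ w : S, w.1.length = n := fun w => (hS w.1 w.2).1
    have hle : ∀ w : S, ∀ q < n, w.1.getD q 0 ≤ 1 := fun w => (hS w.1 w.2).2.1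
    -- main claim
    have main : ∀ q < n, (w1.1.getD q 0 = 1 ↔ w2.1.getD q 0 = 1) := by
      intro q hq
      set l := ql q with hl
      have hll : l.length ≤ n := (ql_length_le q).trans hq.le
      -- the set of values
      obtain ⟨val, hvd⟩ : ∃ val : Fin l.length → Fin k → ℚ,
        ∀ i j, val i j = rat (co (l.getD i 0) (j + 1)) := ⟨_, fun _ _ => rfl⟩
      obtain ⟨rk, hrk, hrkm⟩ := exists_rank val (n * k) (Nat.mul_le_mul_right _ hll)
      -- positions
      let pos : Fin l.length → Fin k → Fin (T n) := fun i j =>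
        ⟨rk (val i j), by have := hrk i j; have := hTe n; omega⟩
      -- new names and lists
      let z' : S → Fin l.length → ℕ := fun w i =>
        mkname (co (l.getD i 0) 0 % ℓ) (fun j => g w (pos i j))
      let l' : S → List ℕ := fun w => List.ofFn (z' w)
      let q' : S → ℕ := fun w => Nat.pair (qk q) (Nat.pair (qs q) (encode (l' w)))
      have hqk : ∀ w, qk (q' w) = qk q := fun w => by simp [qk, q']
      have hqs : ∀ w, qs (q' w) = qs q := fun w => by simp [qs, q']
      have hql : ∀ w, ql (q' w) = l' w := fun w => by simp [ql, q']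
      have hgetD : ∀ (w : S) (i : Fin l.length), (l' w).getD i 0 = z' w i := by
        intro w i
        simp [l', List.getD_eq_getElem?_getD, List.getElem?_ofFn, i.2]
      have hPat : ∀ w, Pat ℓ k l (l' w) := by
        intro w
        refine ⟨by simp [l'], ?_⟩
        intro i hi i' hi'
        have e1 := hgetD w ⟨i, hi⟩
        have e2 := hgetD w ⟨i', hi'⟩
        simp only at e1 e2
        rw [e1, e2]
        refine ⟨?_, ?_⟩
        · simp only [z']
          rw [co_mkname_zero, Nat.mod_mod]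
        · intro j hj j' hj'
          simp only [z']
          have f1 := co_mkname_succ (co (l.getD (⟨i, hi⟩ : Fin l.length) 0) 0 % ℓ)
            (fun j => g w (pos ⟨i, hi⟩ j)) ⟨j, hj⟩
          have f2 := co_mkname_succ (co (l.getD (⟨i', hi'⟩ : Fin l.length) 0) 0 % ℓ)
            (fun j => g w (pos ⟨i', hi'⟩ j)) ⟨j', hj'⟩
          simp only at f1 f2
          rw [f1, f2, ltq_iff, ltq_iff, rat_natc, rat_natc, Nat.cast_lt, (hg w).lt_iff_lt]
          have := hrkm ⟨i, hi⟩ ⟨j, hj⟩ ⟨i', hi'⟩ ⟨j', hj'⟩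
          rw [← hvd ⟨i, hi⟩ ⟨j, hj⟩, ← hvd ⟨i', hi'⟩ ⟨j', hj'⟩, this]
          exact Iff.rfl
      have hbound : ∀ w, q' w < N n := by
        intro w
        refine lt_of_le_of_lt ?_ (hNe n)
        refine pair_mono ?_ (pair_mono ?_ ?_)
        · exact (Nat.unpair_left_le q).trans hq.le
        · exact ((Nat.unpair_left_le _).trans (Nat.unpair_right_le q)).trans hq.le
        · refine encode_le_encB _ _ _ (by simpa [l'] using hll) ?_
          intro x hx
          simp only [l', List.mem_ofFn] at hx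
          obtain ⟨i, rfl⟩ := hx
          refine le_trans (nm_le_encB (max ℓ (natc (R (T n)))) (k + 1) _ (by simp) ?_) (hBe n)
          intro y hy
          rcases List.mem_cons.1 hy with rfl | hy
          · exact (Nat.mod_lt _ hℓ).le.trans (le_max_left _ _)
          · rw [List.mem_ofFn] at hy
            obtain ⟨j, rfl⟩ := hy
            exact (pair_mono (hgR w _).le le_rfl).trans (le_max_right _ _)
      have hval : ∀ w : S, (P (qk q) (qs q) ((l' w).map (e w)) ↔ w.1.getD q 0 = 1) := by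
        intro w
        have := he w q hq (q' w) (hbound w) (hqk w).symm (hqs w).symm (by rw [hql]; exact hPat w)
        rwa [hqk, hqs, hql] at this
      rw [← hval w1, ← hval w2]
      have hmap : ∀ w : S, (l' w).map (e w) = List.ofFn (ρ ∘ fun i => E w (z' w i)) := by
        intro w
        simp only [l', List.map_ofFn]
        congr 1
        funext i
        simp [heE]
      rw [hmap, hmap]
      apply hinv
      -- patterns agree
      intro i i'
      obtain ⟨f, hf, a, a', ha, ha'⟩ := exists_common (m := n * k) (t := T n) (hTe n)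
        (fun j => rk (val i j)) (fun j => rk (val i' j)) (fun j => hrk i j)
        (fun j => hrk i' j)
      have hfa : ∀ j, f (a j) = pos i j := fun j => Fin.ext (ha j)
      have hfa' : ∀ j, f (a' j) = pos i' j := fun j => Fin.ext (ha' j)
      have hz : ∀ w, z' w i = mkname (co (l.getD i 0) 0 % ℓ) ((g w ∘ f) ∘ a) := by
        intro w
        simp only [z']
        congr 1
        funext j
        simp [hfa]
      have hz' : ∀ w, z' w i' = mkname (co (l.getD i' 0) 0 % ℓ) ((g w ∘ f) ∘ a') := by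
        intro w
        simp only [z']
        congr 1
        funext j
        simp [hfa']
      have k1 := hκ w1 f hf
      have k2 := hκ w2 f hf
      rw [hw, ← k2] at k1
      have k3 := congrFun (congrFun k1 (⟨co (l.getD i 0) 0 % ℓ, Nat.mod_lt _ hℓ⟩, a))
        (⟨co (l.getD i' 0) 0 % ℓ, Nat.mod_lt _ hℓ⟩, a')
      simp only [dat, Prod.mk.injEq, Fin.mk.injEq] at k3
      rw [← hz, ← hz', ← hz, ← hz'] at k3
      refine ⟨k3.1, ?_⟩
      intro j j'
      have := congrFun (congrFun k3.2 j) j'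
      simpa using this
    apply Subtype.ext
    apply List.ext_getElem
    · rw [hlen, hlen]
    · intro q h1 h2
      have hq : q < n := by rw [← hlen w1]; exact h1
      have m := main q hq
      have a1 := hle w1 q hq
      have a2 := hle w2 q hq
      rw [List.getD_eq_getElem _ _ h1] at m a1
      rw [List.getD_eq_getElem _ _ h2] at m a2
      omega
  have := Fintype.card_le_of_injective κ hinj
  simpa using this

end Pool.Agent.H78.DS
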