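import Pool.Agent.H78.DS.Defs
import Pool.Agent.H78.DS.Width
import Pool.Agent.H78.DS.Tree

/-!
# Atomic diagrams, and decoding the code of a structure from a copy
-/

set_option autoImplicit false

namespace Pool.Agent.H78.DS

open Finset Encodable FirstOrder FirstOrder.Language

section diag

variable (L : FirstOrder.Language.{0, 0}) [Primcodable (Σ n, L.Functions n)]
  [Primcodable (Σ n, L.Relations n)]

/-- atomic facts: kind `0` graph of a function symbol, kind `1` relation symbol, kind `≥ 2`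
equality -/
def At {M : Type} (inst : L.Structure M) (κ s : ℕ) (l : List M) : Prop :=
  (κ = 0 ∧ ∃ (n : ℕ) (f : L.Functions n) (xs : Fin n → M),
    s = encode (Sigma.mk n f : Σ m, L.Functions m) ∧
      l = @Structure.funMap L M inst n f xs :: List.ofFn xs) ∨
  (κ = 1 ∧ ∃ (n : ℕ) (r : L.Relations n) (xs : Fin n → M),
    s = encode (Sigma.mk n r : Σ m, L.Relations m) ∧ l = List.ofFn xs ∧
      @Structure.RelMap L M inst n r xs) ∨
  (2 ≤ κ ∧ ∃ x, l = [x, x])

variable {L}

/-- isomorphism, written out -/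
structure Iso {M N : Type} (iM : L.Structure M) (iN : L.Structure N) (σ : M ≃ N) : Prop where
  fn : ∀ (n : ℕ) (f : L.Functions n) (xs : Fin n → M),
    σ (@Structure.funMap L M iM n f xs) = @Structure.funMap L N iN n f (σ ∘ xs)
  rel : ∀ (n : ℕ) (r : L.Relations n) (xs : Fin n → M),
    @Structure.RelMap L N iN n r (σ ∘ xs) ↔ @Structure.RelMap L M iM n r xs

theorem Iso.symm {M N : Type} {iM : L.Structure M} {iN : L.Structure N} {σ : M ≃ N}
    (h : Iso iM iN σ) : Iso iN iM σ.symm where
  fn n f xs := by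
    have := h.fn n f (σ.symm ∘ xs)
    rw [← Function.comp_assoc, Equiv.self_comp_symm, Function.id_comp] at this
    rw [← this, Equiv.symm_apply_apply]
  rel n r xs := by
    have := h.rel n r (σ.symm ∘ xs)
    rw [← Function.comp_assoc, Equiv.self_comp_symm, Function.id_comp] at this
    exact this.symm

theorem At.map {M N : Type} {iM : L.Structure M} {iN : L.Structure N} {σ : M ≃ N}
    (h : Iso iM iN σ) {κ s : ℕ} {l : List M} (hl : At L iM κ s l) : At L iN κ s (l.map σ) := by
  rcases hl with ⟨h0, n, f, xs, hs, rfl⟩ | ⟨h0, n, r, xs, hs, rfl, hr⟩ | ⟨h0, x, rfl⟩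
  · refine Or.inl ⟨h0, n, f, σ ∘ xs, hs, ?_⟩
    simp [h.fn, List.map_ofFn]
  · refine Or.inr (Or.inl ⟨h0, n, r, σ ∘ xs, hs, ?_, (h.rel n r xs).2 hr⟩)
    simp [List.map_ofFn]
  · exact Or.inr (Or.inr ⟨h0, σ x, rfl⟩)

theorem At.map_iff {M N : Type} {iM : L.Structure M} {iN : L.Structure N} {σ : M ≃ N}
    (h : Iso iM iN σ) {κ s : ℕ} {l : List M} : At L iN κ s (l.map σ) ↔ At L iM κ s l := by
  refine ⟨fun hl => ?_, fun hl => hl.map h⟩
  have := hl.map h.symm
  simpa using this

end diag

/-- number of a functional fact -/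
def num0 (s : ℕ) (l : List ℕ) : ℕ := Nat.pair 0 (Nat.pair s (Nat.pair (encode l.tail) l.headI))
/-- number of a relational fact -/
def num1 (s : ℕ) (l : List ℕ) : ℕ := Nat.pair 1 (Nat.pair s (encode l))

theorem num0_primrec : Primrec₂ num0 :=
  Primrec₂.natPair.comp (Primrec.const 0) (Primrec₂.natPair.comp Primrec.fst
    (Primrec₂.natPair.comp (Primrec.encode.comp (Primrec.list_tail.comp Primrec.snd))
      (Primrec.list_headI.comp Primrec.snd)))

theorem num1_primrec : Primrec₂ num1 :=
  Primrec₂.natPair.comp (Primrec.const 1) (Primrec₂.natPair.comp Primrec.fst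
    (Primrec.encode.comp Primrec.snd))

/-- truth of a fact, read off a finite prefix `p` of the diagram -/
def TT (p : List ℕ) (κ s : ℕ) (l : List ℕ) : Prop :=
  (κ = 0 ∧ l.length ≠ 0 ∧ p.getD (num0 s l) 0 = 1) ∨ (κ = 1 ∧ p.getD (num1 s l) 0 = 1) ∨
    (2 ≤ κ ∧ l.length = 2 ∧ l.getD 0 0 = l.getD 1 0)

section TT

variable {L : FirstOrder.Language.{0, 0}} [Primcodable (Σ n, L.Functions n)]
  [Primcodable (Σ n, L.Relations n)]

theorem ind_eq_one {S : Set ℕ} {k : ℕ} : S.indicator (fun _ => (1 : ℕ)) k = 1 ↔ k ∈ S := by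
  classical
  rw [Set.indicator_apply]
  split_ifs with h <;> simp [h]

theorem ofFn_inj' {α : Type} {n m : ℕ} {xs : Fin n → α} {ys : Fin m → α}
    (h : List.ofFn xs = List.ofFn ys) : ∃ h : n = m, xs = ys ∘ Fin.cast h := by
  have hn : n = m := by simpa using congrArg List.length h
  subst hn
  exact ⟨rfl, by simpa using List.ofFn_injective h⟩

theorem TT_iff (A : L.Structure ℕ) {v κ s : ℕ} {l : List ℕ} (h0 : num0 s l < v)
    (h1 : num1 s l < v) :
    TT (pre ((diag L A).indicator (fun _ => 1)) v) κ s l ↔ At L A κ s l := by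
  unfold TT At
  rw [pre_getD _ h0, pre_getD _ h1, ind_eq_one, ind_eq_one]
  refine or_congr (and_congr_right fun _ => ?_) (or_congr (and_congr_right fun _ => ?_)
    (and_congr_right fun _ => ?_))
  · constructor
    · rintro ⟨hl, hm⟩
      obtain ⟨y, ys, rfl⟩ : ∃ y ys, l = y :: ys := by
        cases l with
        | nil => simp at hl
        | cons y ys => exact ⟨y, ys, rfl⟩
      rcases hm with ⟨n, f, xs, hk⟩ | ⟨n, r, xs, hk, _⟩
      · simp only [num0, Nat.pair_eq_pair, List.tail_cons, List.headI_cons, true_and] at hk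
        refine ⟨n, f, xs, hk.1, ?_⟩
        rw [hk.2.2, encode_injective hk.2.1]
      · simp only [num0, Nat.pair_eq_pair] at hk
        omega
    · rintro ⟨n, f, xs, hs, rfl⟩
      refine ⟨by simp, Or.inl ⟨n, f, xs, ?_⟩⟩
      simp [num0, hs]
  · constructor
    · rintro (⟨n, f, xs, hk⟩ | ⟨n, r, xs, hk, hr⟩)
      · simp only [num1, Nat.pair_eq_pair] at hk
        omega
      · simp only [num1, Nat.pair_eq_pair, true_and] at hk
        exact ⟨n, r, xs, hk.1, encode_injective hk.2, hr⟩
    · rintro ⟨n, r, xs, hs, rfl, hr⟩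
      exact Or.inr ⟨n, r, xs, by simp [num1, hs], hr⟩
  · constructor
    · rintro ⟨hl, he⟩
      obtain ⟨x, y, rfl⟩ := List.length_eq_two.1 hl
      simp at he
      exact ⟨x, by rw [he]⟩
    · rintro ⟨x, rfl⟩
      simp

end TT

/-- the test of a single query `q'` with assignment `e` against the bit `b` -/
def Cell (e p : List ℕ) (q' b : ℕ) : Prop :=
  num0 (qs q') ((ql q').map fun z => e.getD z 0) < p.length ∧
  num1 (qs q') ((ql q').map fun z => e.getD z 0) < p.length ∧
  (TT p (qk q') (qs q') ((ql q').map fun z => e.getD z 0) ↔ b = 1)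

/-- the queries match -/
def Mtch (ℓ k q q' : ℕ) : Prop := qk q = qk q' ∧ qs q = qs q' ∧ Pat ℓ k (ql q) (ql q')

/-- the test for a word `w` and assignment `e` -/
def Chk (ℓ k : ℕ) (N : ℕ → ℕ) (n : ℕ) (w e p : List ℕ) : Prop :=
  w.length = n ∧ (∀ q < n, w.getD q 0 ≤ 1) ∧
    ∀ q < n, ∀ q' < N n, Mtch ℓ k q q' → Cell e p q' (w.getD q 0)

theorem qk_primrec : Primrec qk := pfst
theorem qs_primrec : Primrec qs := pfst.comp psnd
theorem ql_primrec : Primrec ql := (Primrec.ofNat (List ℕ)).comp (psnd.comp psnd)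

theorem TT_primrec {α : Type} [Primcodable α] {p : α → List ℕ} {κ s : α → ℕ} {l : α → List ℕ}
    (hp : Primrec p) (hκ : Primrec κ) (hs : Primrec s) (hl : Primrec l) :
    PrimrecPred fun a => TT (p a) (κ a) (s a) (l a) := by
  refine PrimrecPred.or ?_ (PrimrecPred.or ?_ ?_)
  · refine (Primrec.eq.comp hκ (Primrec.const 0)).and (PrimrecPred.and ?_ ?_)
    · exact (Primrec.eq.comp (Primrec.list_length.comp hl) (Primrec.const 0)).not
    · exact Primrec.eq.comp (pgetD.comp hp (num0_primrec.comp hs hl)) (Primrec.const 1)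
  · refine (Primrec.eq.comp hκ (Primrec.const 1)).and ?_
    exact Primrec.eq.comp (pgetD.comp hp (num1_primrec.comp hs hl)) (Primrec.const 1)
  · refine (Primrec.nat_le.comp (Primrec.const 2) hκ).and (PrimrecPred.and ?_ ?_)
    · exact Primrec.eq.comp (Primrec.list_length.comp hl) (Primrec.const 2)
    · exact Primrec.eq.comp (pgetD.comp hl (Primrec.const 0)) (pgetD.comp hl (Primrec.const 1))

theorem Cell_primrec {α : Type} [Primcodable α] {e p : α → List ℕ} {q' b : α → ℕ}
    (he : Primrec e) (hp : Primrec p) (hq : Primrec q') (hb : Primrec b) :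
    PrimrecPred fun a => Cell (e a) (p a) (q' a) (b a) := by
  have hs : Primrec fun a => qs (q' a) := qs_primrec.comp hq
  have hl : Primrec fun a => (ql (q' a)).map fun z => (e a).getD z 0 :=
    Primrec.list_map (ql_primrec.comp hq) (pgetD.comp (he.comp Primrec.fst) Primrec.snd).to₂
  refine PrimrecPred.and ?_ (PrimrecPred.and ?_ ?_)
  · exact Primrec.nat_lt.comp (num0_primrec.comp hs hl) (Primrec.list_length.comp hp)
  · exact Primrec.nat_lt.comp (num1_primrec.comp hs hl) (Primrec.list_length.comp hp)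
  · exact piff (TT_primrec hp (qk_primrec.comp hq) hs hl) (Primrec.eq.comp hb (Primrec.const 1))

theorem Mtch_primrec (ℓ k : ℕ) {α : Type} [Primcodable α] {q q' : α → ℕ}
    (hq : Primrec q) (hq' : Primrec q') : PrimrecPred fun a => Mtch ℓ k (q a) (q' a) := by
  refine PrimrecPred.and ?_ (PrimrecPred.and ?_ ?_)
  · exact Primrec.eq.comp (qk_primrec.comp hq) (qk_primrec.comp hq')
  · exact Primrec.eq.comp (qs_primrec.comp hq) (qs_primrec.comp hq')
  · exact (pat_primrec ℓ k).comp (f := fun a => (ql (q a), ql (q' a)))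
      ((ql_primrec.comp hq).pair (ql_primrec.comp hq'))

theorem Chk_primrec (ℓ k : ℕ) {N : ℕ → ℕ} (hN : Primrec N) {α : Type} [Primcodable α]
    {n : α → ℕ} {w e p : α → List ℕ}
    (hn : Primrec n) (hw : Primrec w) (he : Primrec e) (hp : Primrec p) :
    PrimrecPred fun a => Chk ℓ k N (n a) (w a) (e a) (p a) := by
  refine PrimrecPred.and ?_ (PrimrecPred.and ?_ ?_)
  · exact Primrec.eq.comp (Primrec.list_length.comp hw) hn
  · refine ball hn ?_
    exact Primrec.nat_le.comp (pgetD.comp (hw.comp Primrec.fst) Primrec.snd) (Primrec.const 1)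
  · refine ball hn ?_
    refine ball (hN.comp (hn.comp Primrec.fst)) ?_
    refine pimp ?_ ?_
    · exact Mtch_primrec ℓ k (Primrec.snd.comp Primrec.fst) Primrec.snd
    · exact Cell_primrec (he.comp (Primrec.fst.comp Primrec.fst))
        (hp.comp (Primrec.fst.comp Primrec.fst)) Primrec.snd
        (pgetD.comp (hw.comp (Primrec.fst.comp Primrec.fst)) (Primrec.snd.comp Primrec.fst))

end Pool.Agent.H78.DS
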