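import Mathlib

/-!
# Homogeneity of `ℚ`, elimination of parameters
-/

set_option autoImplicit false

namespace Pool.Agent.H78.DS

open Order PartialIso

theorem homogeneous {ι : Type*} [Fintype ι] (x y : ι → ℚ) (h : ∀ i j, x i < x j ↔ y i < y j) :
    ∃ e : ℚ ≃o ℚ, ∀ i, e (x i) = y i := by
  classical
  have hcmp : ∀ i j, cmp (x i) (x j) = cmp (y i) (y j) := by
    intro i j
    rcases lt_trichotomy (x i) (x j) with h1 | h1 | h1
    · rw [(cmp_eq_lt_iff _ _).2 h1, (cmp_eq_lt_iff _ _).2 ((h i j).1 h1)]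
    · have h2 : y i = y j := by
        apply le_antisymm
        · exact not_lt.1 (fun h3 => absurd ((h j i).2 h3) (by rw [h1]; exact lt_irrefl _))
        · exact not_lt.1 (fun h3 => absurd ((h i j).2 h3) (by rw [h1]; exact lt_irrefl _))
      rw [h1, h2, cmp_self_eq_eq, cmp_self_eq_eq]
    · rw [(cmp_eq_gt_iff _ _).2 h1, (cmp_eq_gt_iff _ _).2 ((h j i).1 h1)]
  let f0 : PartialIso ℚ ℚ := ⟨Finset.univ.image (fun i => (x i, y i)), by
    intro p hp q hq
    obtain ⟨i, _, rfl⟩ := Finset.mem_image.1 hp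
    obtain ⟨j, _, rfl⟩ := Finset.mem_image.1 hq
    exact hcmp i j⟩
  let to_cofinal : ℚ ⊕ ℚ → Cofinal (PartialIso ℚ ℚ) := fun p ↦
    Sum.recOn p (definedAtLeft ℚ) (definedAtRight ℚ)
  let our_ideal : Ideal (PartialIso ℚ ℚ) := idealOfCofinals f0 to_cofinal
  have hf0 : f0 ∈ our_ideal := mem_idealOfCofinals _ _
  let F a := funOfIdeal a our_ideal (cofinal_meets_idealOfCofinals _ to_cofinal (Sum.inl a))
  let G b := invOfIdeal b our_ideal (cofinal_meets_idealOfCofinals _ to_cofinal (Sum.inr b))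
  refine ⟨OrderIso.ofCmpEqCmp (fun a ↦ (F a).val) (fun b ↦ (G b).val) fun a b ↦ ?_, ?_⟩
  · rcases (F a).prop with ⟨f, hf, ha⟩
    rcases (G b).prop with ⟨g, hg, hb⟩
    rcases our_ideal.directed _ hf _ hg with ⟨m, _, fm, gm⟩
    exact m.prop (a, _) (fm ha) (_, b) (gm hb)
  · intro i
    change (F (x i)).val = y i
    rcases (F (x i)).prop with ⟨f, hf, ha⟩
    rcases our_ideal.directed _ hf _ hf0 with ⟨m, _, fm, gm⟩
    have h1 : (x i, y i) ∈ f0.val := Finset.mem_image_of_mem _ (Finset.mem_univ i)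
    have := m.prop _ (fm ha) _ (gm h1)
    simp only [cmp_self_eq_eq] at this
    exact (cmp_eq_eq_iff _ _).1 this.symm

/-- the gap of `ℚ \ C` with lower part `S` -/
def gap (C S : Finset ℚ) : Set ℚ := {x | x ∉ C ∧ C.filter (· < x) = S}

theorem gap_between {C S : Finset ℚ} {x y z : ℚ} (hx : x ∈ gap C S) (hy : y ∈ gap C S)
    (h1 : x < z) (h2 : z < y) : z ∈ gap C S := by
  constructor
  · intro hz
    have : z ∈ C.filter (· < x) := by
      rw [hx.2, ← hy.2]; exact Finset.mem_filter.2 ⟨hz, h2⟩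
    exact lt_asymm h1 (Finset.mem_filter.1 this).2
  · apply Finset.Subset.antisymm
    · intro c hc
      rw [← hy.2]
      rw [Finset.mem_filter] at hc ⊢
      exact ⟨hc.1, hc.2.trans h2⟩
    · intro c hc
      rw [← hx.2] at hc
      rw [Finset.mem_filter] at hc ⊢
      exact ⟨hc.1, hc.2.trans h1⟩

theorem gap_above {C S : Finset ℚ} {x : ℚ} (hx : x ∈ gap C S) : ∃ y ∈ gap C S, x < y := by
  obtain ⟨y, h1, h2⟩ := exists_between_finsets ({x} : Finset ℚ) (C.filter (x < ·)) (by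
    intro a ha b hb
    rw [Finset.mem_singleton.1 ha]; exact (Finset.mem_filter.1 hb).2)
  have hxy : x < y := h1 x (Finset.mem_singleton_self x)
  refine ⟨y, ⟨?_, ?_⟩, hxy⟩
  · intro hy
    exact lt_irrefl _ (h2 y (Finset.mem_filter.2 ⟨hy, hxy⟩))
  · rw [← hx.2]
    apply Finset.filter_congr
    intro c hc
    constructor
    · intro hcy
      rcases lt_trichotomy c x with h | h | h
      · exact h
      · exact absurd (h ▸ hc) hx.1
      · exact absurd (h2 c (Finset.mem_filter.2 ⟨hc, h⟩)) (lt_asymm hcy)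
    · intro h; exact h.trans hxy

theorem gap_below {C S : Finset ℚ} {x : ℚ} (hx : x ∈ gap C S) : ∃ y ∈ gap C S, y < x := by
  obtain ⟨y, h1, h2⟩ := exists_between_finsets (C.filter (· < x)) ({x} : Finset ℚ) (by
    intro a ha b hb
    rw [Finset.mem_singleton.1 hb]; exact (Finset.mem_filter.1 ha).2)
  have hxy : y < x := h2 x (Finset.mem_singleton_self x)
  refine ⟨y, ⟨?_, ?_⟩, hxy⟩
  · intro hy
    exact lt_irrefl _ (h1 y (Finset.mem_filter.2 ⟨hy, hxy⟩))
  · rw [← hx.2]
    apply Finset.filter_congr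
    intro c hc
    constructor
    · intro hcy; exact hcy.trans hxy
    · intro h
      exact h1 c (Finset.mem_filter.2 ⟨hc, h⟩)

theorem gap_iso {C S : Finset ℚ} (h : (gap C S).Nonempty) : Nonempty (ℚ ≃o gap C S) := by
  haveI : Nonempty (gap C S) := h.to_subtype
  haveI : DenselyOrdered (gap C S) := ⟨by
    intro a b hab
    obtain ⟨z, h1, h2⟩ := exists_between (show (a : ℚ) < b from hab)
    exact ⟨⟨z, gap_between a.2 b.2 h1 h2⟩, h1, h2⟩⟩
  haveI : NoMinOrder (gap C S) := ⟨by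
    intro a
    obtain ⟨y, hy, h1⟩ := gap_below a.2
    exact ⟨⟨y, hy⟩, h1⟩⟩
  haveI : NoMaxOrder (gap C S) := ⟨by
    intro a
    obtain ⟨y, hy, h1⟩ := gap_above a.2
    exact ⟨⟨y, hy⟩, h1⟩⟩
  exact iso_of_countable_dense ℚ (gap C S)

theorem mem_gap_self {C : Finset ℚ} {x : ℚ} (hx : x ∉ C) : x ∈ gap C (C.filter (· < x)) :=
  ⟨hx, rfl⟩

/-- labels of a coordinate -/
abbrev Lab (C : Finset ℚ) := {c // c ∈ C} ⊕ {S // S ∈ C.powerset ∧ (gap C S).Nonempty}

open Classical in
noncomputable instance (C : Finset ℚ) : Fintype (Lab C) := by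
  haveI : Finite {S // S ∈ C.powerset ∧ (gap C S).Nonempty} :=
    Finite.of_injective (β := C.powerset) (fun S => ⟨S.1, S.2.1⟩) (fun S S' h => by
      apply Subtype.ext
      simpa using h)
  exact Fintype.ofFinite _

/-- the rational with label `t` and value `a` -/
noncomputable def cv (C : Finset ℚ) (t : Lab C) (a : ℚ) : ℚ :=
  match t with
  | Sum.inl c => c.1
  | Sum.inr S => ((gap_iso S.2.2).some a : ℚ)

theorem cv_mem (C : Finset ℚ) (S : {S // S ∈ C.powerset ∧ (gap C S).Nonempty}) (a : ℚ) :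
    cv C (Sum.inr S) a ∈ gap C S.1 := ((gap_iso S.2.2).some a).2

theorem cv_surj (C : Finset ℚ) (x : ℚ) : ∃ t a, cv C t a = x := by
  by_cases hx : x ∈ C
  · exact ⟨Sum.inl ⟨x, hx⟩, 0, rfl⟩
  · have hg := mem_gap_self hx
    let S : {S // S ∈ C.powerset ∧ (gap C S).Nonempty} :=
      ⟨C.filter (· < x), Finset.mem_powerset.2 (Finset.filter_subset _ _), ⟨x, hg⟩⟩
    refine ⟨Sum.inr S, (gap_iso S.2.2).some.symm ⟨x, hg⟩, ?_⟩
    simp [cv]

theorem cv_lt (C : Finset ℚ) (t t' : Lab C) (a a' b b' : ℚ) (h : a < a' ↔ b < b') :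
    cv C t a < cv C t' a' ↔ cv C t b < cv C t' b' := by
  rcases t with c | S <;> rcases t' with c' | S'
  · exact Iff.rfl
  · have h1 : ∀ x ∈ gap C S'.1, (c.1 < x ↔ c.1 ∈ S'.1) := by
      intro x hx
      rw [← hx.2, Finset.mem_filter]
      exact ⟨fun h => ⟨c.2, h⟩, fun h => h.2⟩
    change c.1 < _ ↔ c.1 < _
    rw [h1 _ (cv_mem C S' a'), h1 _ (cv_mem C S' b')]
  · have h1 : ∀ x ∈ gap C S.1, (x < c'.1 ↔ c'.1 ∉ S.1) := by
      intro x hx
      rw [← hx.2, Finset.mem_filter]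
      constructor
      · intro h h2; exact lt_asymm h h2.2
      · intro h
        rcases lt_trichotomy x c'.1 with h3 | h3 | h3
        · exact h3
        · exact absurd (h3 ▸ c'.2) hx.1
        · exact absurd ⟨c'.2, h3⟩ h
    change _ < c'.1 ↔ _ < c'.1
    rw [h1 _ (cv_mem C S a), h1 _ (cv_mem C S b)]
  · by_cases hS : S = S'
    · subst hS
      change ((gap_iso S.2.2).some a : ℚ) < ((gap_iso S.2.2).some a' : ℚ) ↔
        ((gap_iso S.2.2).some b : ℚ) < ((gap_iso S.2.2).some b' : ℚ)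
      rw [Subtype.coe_lt_coe, Subtype.coe_lt_coe, OrderIso.lt_iff_lt, OrderIso.lt_iff_lt, h]
    · have hS' : S.1 ≠ S'.1 := fun h => hS (Subtype.ext h)
      have h1 : ∀ x ∈ gap C S.1, ∀ x' ∈ gap C S'.1, (x < x' ↔ S.1 ⊆ S'.1) := by
        intro x hx x' hx'
        have mono : ∀ {y y' : ℚ}, y < y' → C.filter (· < y) ⊆ C.filter (· < y') := by
          intro y y' hy c hc
          rw [Finset.mem_filter] at hc ⊢
          exact ⟨hc.1, hc.2.trans hy⟩
        constructor
        · intro h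
          rw [← hx.2, ← hx'.2]; exact mono h
        · intro h
          rcases lt_trichotomy x x' with h3 | h3 | h3
          · exact h3
          · exact absurd (hx.2.symm.trans (h3 ▸ hx'.2)) hS'
          · have := mono h3
            rw [hx.2, hx'.2] at this
            exact absurd (Finset.Subset.antisymm h this) hS'
      rw [h1 _ (cv_mem C S a) _ (cv_mem C S' a'), h1 _ (cv_mem C S b) _ (cv_mem C S' b')]

theorem cv_lt_const (C : Finset ℚ) (t : Lab C) (a b : ℚ) {c : ℚ} (hc : c ∈ C) :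
    (cv C t a < c ↔ cv C t b < c) ∧ (c < cv C t a ↔ c < cv C t b) := by
  rcases t with c' | S
  · exact ⟨Iff.rfl, Iff.rfl⟩
  · have h1 : ∀ x ∈ gap C S.1, (c < x ↔ c ∈ S.1) := by
      intro x hx
      rw [← hx.2, Finset.mem_filter]
      exact ⟨fun h => ⟨hc, h⟩, fun h => h.2⟩
    have h2 : ∀ x ∈ gap C S.1, (x < c ↔ c ∉ S.1) := by
      intro x hx
      rw [← h1 x hx]
      constructor
      · intro h h2; exact lt_asymm h h2
      · intro h
        rcases lt_trichotomy x c with h3 | h3 | h3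
        · exact h3
        · exact absurd (h3 ▸ hc) hx.1
        · exact absurd h3 h
    rw [h1 _ (cv_mem C S a), h1 _ (cv_mem C S b), h2 _ (cv_mem C S a), h2 _ (cv_mem C S b)]
    exact ⟨Iff.rfl, Iff.rfl⟩

end Pool.Agent.H78.DS
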