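import Pool.Agent.H78.DS.Copy
import Pool.Agent.H78.DS.Homog

/-!
# Degree spectra of structures interpretable in `(ℚ, <)`
-/

set_option autoImplicit false

namespace Pool.Agent.H78.DS

open Encodable FirstOrder FirstOrder.Language Cardinal

section

variable {L : FirstOrder.Language.{0, 0}} [Primcodable (Σ n, L.Functions n)]
  [Primcodable (Σ n, L.Relations n)]

omit [Primcodable (Σ n, L.Functions n)] [Primcodable (Σ n, L.Relations n)] in
theorem iso_of_equiv {M N : Type} [iM : L.Structure M] [iN : L.Structure N] (σ : M ≃[L] N) :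
    Iso iM iN σ.toEquiv :=
  ⟨fun _ f xs => σ.map_fun f xs, fun _ r xs => σ.map_rel r xs⟩

theorem main (T : L.Theory) (hT : Categorical (ℵ₀ : Cardinal.{0}) T) (M : Type) [iM : L.Structure M] [Infinite M]
    (hM : M ⊨ T) (hI : RatInterpretable L M) :
    ∃ a : ℕ → ℕ, ∀ g : ℕ → ℕ,
      (∃ A : L.Structure ℕ, @FirstOrder.Language.Theory.Model L ℕ A T ∧
        TuringReducible (PFun.lift ((diag L A).indicator (fun _ => (1 : ℕ)))) (PFun.lift g)) ↔
      TuringReducible (PFun.lift a) (PFun.lift g) := by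
  classical
  obtain ⟨k, C, ρ0, hρ0, haut⟩ := hI
  -- labels
  set Λ := Fin k → Lab C with hΛ
  have hne : Nonempty Λ := ⟨fun _ => (cv_surj C 0).choose⟩
  set ℓ := Fintype.card Λ with hℓd
  have hℓ : 0 < ℓ := Fintype.card_pos_iff.2 hne
  let lb : ℕ → Λ := fun n => (Fintype.equivFin Λ).symm ⟨n % ℓ, Nat.mod_lt _ hℓ⟩
  let rt : Rep k → (Fin k → ℚ) := fun r j => cv C (lb r.1 j) (r.2 j)
  let ρ : Rep k → M := fun r => ρ0 (rt r)
  have hsurj : ∀ x, ∃ r : Rep k, r.1 < ℓ ∧ ρ r = x := by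
    intro x
    obtain ⟨y, rfl⟩ := hρ0 x
    choose t a hta using fun j => cv_surj C (y j)
    refine ⟨((Fintype.equivFin Λ) t, a), (Fintype.equivFin Λ t).2, ?_⟩
    simp only [ρ]
    congr 1
    funext j
    simp only [rt, lb]
    have : (⟨((Fintype.equivFin Λ) t : ℕ) % ℓ, Nat.mod_lt _ hℓ⟩ : Fin ℓ) = Fintype.equivFin Λ t :=
      Fin.ext (Nat.mod_eq_of_lt (Fintype.equivFin Λ t).2)
    rw [this, Equiv.symm_apply_apply]
    exact hta j
  have hinv : ∀ κ s n (x y : Fin n → Rep k), PatF x y →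
        (At L iM κ s (List.ofFn (ρ ∘ x)) ↔ At L iM κ s (List.ofFn (ρ ∘ y))) := by
    intro κ s n x y hxy
    have hlab : ∀ i, lb (x i).1 = lb (y i).1 := fun i => by rw [(hxy i i).1]
    let u : (Fin n × Fin k) ⊕ {c // c ∈ C} → ℚ := Sum.elim (fun p => rt (x p.1) p.2) (fun c => c.1)
    let v : (Fin n × Fin k) ⊕ {c // c ∈ C} → ℚ := Sum.elim (fun p => rt (y p.1) p.2) (fun c => c.1)
    obtain ⟨e, he⟩ := homogeneous u v (by
      rintro (p | c) (p' | c')
      · simp only [u, v, Sum.elim_inl, rt]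
        rw [hlab, hlab]
        exact cv_lt C _ _ _ _ _ _ ((hxy p.1 p'.1).2 p.2 p'.2)
      · simp only [u, v, Sum.elim_inl, Sum.elim_inr, rt]
        rw [hlab]
        exact (cv_lt_const C _ _ _ c'.2).1
      · simp only [u, v, Sum.elim_inl, Sum.elim_inr, rt]
        rw [hlab]
        exact (cv_lt_const C _ _ _ c.2).2
      · exact Iff.rfl)
    obtain ⟨σ, hσ⟩ := haut e (fun c hc => he (Sum.inr ⟨c, hc⟩))
    have h1 : (List.ofFn (ρ ∘ x)).map σ.toEquiv = List.ofFn (ρ ∘ y) := by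
      rw [List.map_ofFn]
      congr 1
      funext i
      change σ (ρ0 (rt (x i))) = ρ0 (rt (y i))
      rw [hσ]
      congr 1
      funext j
      exact he (Sum.inl (i, j))
    rw [← h1]
    exact (At.map_iff (iso_of_equiv σ)).symm
  refine ⟨Xc (At L iM) ρ ℓ, fun g => ⟨?_, ?_⟩⟩
  · rintro ⟨A, hA, hAg⟩
    have hMc : #M = ℵ₀ := by
      have : Countable M := hρ0.countable
      exact Cardinal.mk_eq_aleph0 M
    let _ : L.Structure ℕ := A
    have : (ℕ : Type) ⊨ T := hA
    have : M ⊨ T := hM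
    obtain ⟨σ⟩ := hT (FirstOrder.Language.Theory.ModelType.of T ℕ)
      (FirstOrder.Language.Theory.ModelType.of T M) (by simp) (by simpa using hMc)
    have σ' : ℕ ≃[L] M := σ
    exact (decode iM ℓ k hℓ ρ hsurj hinv A σ'.toEquiv (iso_of_equiv σ')).trans hAg
  · intro hg
    obtain ⟨A, σ, hσ, hred⟩ := exists_copy (L := L) iM ℓ k ρ hsurj
    refine ⟨A, ?_, hred.trans hg⟩
    let _ : L.Structure ℕ := A
    have : M ⊨ T := hM
    let τ : ℕ ≃[L] M := { toEquiv := σ, map_fun' := fun f xs => hσ.fn _ f xs,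
                           map_rel' := fun r xs => hσ.rel _ r xs }
    exact τ.symm.toElementaryEmbedding.theory_model_iff T |>.1 hM

end

end Pool.Agent.H78.DS
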