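import Mathlib

/-!
# Relative computability through finite prefixes of the oracle
-/

set_option autoImplicit false

namespace Pool.Agent.H78.DS

open Encodable

/-- the first `v` values of `d` -/
def pre (d : ℕ → ℕ) (v : ℕ) : List ℕ := (List.range v).map d

theorem pre_length (d : ℕ → ℕ) (v : ℕ) : (pre d v).length = v := by simp [pre]

theorem pre_getD (d : ℕ → ℕ) {v i : ℕ} (h : i < v) : (pre d v).getD i 0 = d i := by
  simp [pre, List.getD, h]

theorem pre_succ (d : ℕ → ℕ) (v : ℕ) : pre d (v + 1) = pre d v ++ [d v] := by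
  simp [pre, List.range_succ]

theorem pre_recursiveIn (d : ℕ → ℕ) :
    Nat.RecursiveIn {PFun.lift d} (PFun.lift fun v => encode (pre d v)) := by
  have hC : Nat.Primrec fun x : ℕ => encode ((Denumerable.ofNat (List ℕ) x.unpair.1) ++ [x.unpair.2]) := by
    rw [← Primrec.nat_iff]
    apply Primrec.encode.comp
    apply Primrec.list_concat.comp
    · exact (Primrec.ofNat (List ℕ)).comp (Primrec.fst.comp Primrec.unpair)
    · exact Primrec.snd.comp Primrec.unpair
  have hproj : Nat.RecursiveIn {PFun.lift d} (PFun.lift fun x : ℕ => x.unpair.2.unpair.2) :=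
    (Nat.Primrec.recursiveIn (O := {PFun.lift d})
      (Nat.Primrec.comp Nat.Primrec.right Nat.Primrec.right)).of_eq (fun n => by simp [PFun.lift])
  have hproj1 : Nat.RecursiveIn {PFun.lift d} (PFun.lift fun x : ℕ => x.unpair.2.unpair.1) :=
    (Nat.Primrec.recursiveIn (O := {PFun.lift d})
      (Nat.Primrec.comp Nat.Primrec.left Nat.Primrec.right)).of_eq (fun n => by simp [PFun.lift])
  have ho : Nat.RecursiveIn {PFun.lift d} (PFun.lift fun x : ℕ => d x.unpair.2.unpair.1) :=
    ((Nat.RecursiveIn.oracle (PFun.lift d) (Set.mem_singleton _)).comp hproj1).of_eq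
      (fun n => by simp [PFun.lift])
  have hp : Nat.RecursiveIn {PFun.lift d}
      (PFun.lift fun x : ℕ => Nat.pair x.unpair.2.unpair.2 (d x.unpair.2.unpair.1)) :=
    (hproj.pair ho).of_eq (fun n => by simp [PFun.lift, Seq.seq])
  have hstep : Nat.RecursiveIn {PFun.lift d} (PFun.lift fun x : ℕ =>
      encode ((Denumerable.ofNat (List ℕ) x.unpair.2.unpair.2) ++ [d x.unpair.2.unpair.1])) :=
    ((Nat.Primrec.recursiveIn (O := {PFun.lift d}) hC).comp hp).of_eq
      (fun n => by simp [PFun.lift])
  have hz : Nat.RecursiveIn {PFun.lift d} (PFun.lift fun _ : ℕ => encode ([] : List ℕ)) :=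
    (Nat.Primrec.recursiveIn (O := {PFun.lift d}) (Nat.Primrec.const 0)).of_eq
      (fun n => by simp [PFun.lift])
  have h1 := hz.prec hstep
  have hin : Nat.RecursiveIn {PFun.lift d} (PFun.lift fun v : ℕ => Nat.pair 0 v) :=
    (Nat.Primrec.recursiveIn (O := {PFun.lift d})
      (Nat.Primrec.pair Nat.Primrec.zero Nat.Primrec.id)).of_eq (fun n => by simp [PFun.lift])
  refine (h1.comp hin).of_eq fun v => ?_
  simp only [PFun.lift, Part.coe_some, Part.bind_some, Part.bind_eq_bind, Nat.unpair_pair]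
  induction v with
  | zero => simp [pre]
  | succ v ih =>
    simp only [Nat.rec_add_one] at ih ⊢
    rw [ih]
    simp [pre_succ]

/-- A function is recursive in `d` when its values can be found by an unbounded search for a
witness which is checked against a finite prefix of `d`. -/
theorem recursiveIn_of_search (d F : ℕ → ℕ) (Θ : ℕ → ℕ → List ℕ → Prop) (out : ℕ → ℕ → ℕ)
    (hΘ : PrimrecPred fun x : (ℕ × ℕ) × List ℕ => Θ x.1.1 x.1.2 x.2)
    (hout : Primrec₂ out)
    (h1 : ∀ m, ∃ v, Θ m v (pre d v))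
    (h2 : ∀ m v, Θ m v (pre d v) → out m v = F m) :
    TuringReducible (PFun.lift F) (PFun.lift d) := by
  classical
  rw [TuringReducible, RecursiveIn.iff_nat]
  have ht : Nat.Primrec fun x : ℕ =>
      if Θ x.unpair.1.unpair.1 x.unpair.1.unpair.2 (Denumerable.ofNat (List ℕ) x.unpair.2)
        then 0 else 1 := by
    rw [← Primrec.nat_iff]
    refine Primrec.ite ?_ (Primrec.const 0) (Primrec.const 1)
    refine hΘ.comp (f := fun x : ℕ => ((x.unpair.1.unpair.1, x.unpair.1.unpair.2),
      Denumerable.ofNat (List ℕ) x.unpair.2)) ?_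
    have hu1 : Primrec fun x : ℕ => x.unpair.1 := Primrec.fst.comp Primrec.unpair
    have hu2 : Primrec fun x : ℕ => x.unpair.2 := Primrec.snd.comp Primrec.unpair
    exact ((hu1.comp hu1).pair (hu2.comp hu1)).pair ((Primrec.ofNat (List ℕ)).comp hu2)
  have hpre := pre_recursiveIn d
  have hr : Nat.RecursiveIn {PFun.lift d} (PFun.lift fun x : ℕ => x.unpair.2) :=
    (Nat.Primrec.recursiveIn (O := {PFun.lift d}) Nat.Primrec.right).of_eq
      (fun n => by simp [PFun.lift])
  have hid : Nat.RecursiveIn {PFun.lift d} (PFun.lift fun x : ℕ => x) :=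
    (Nat.Primrec.recursiveIn (O := {PFun.lift d}) Nat.Primrec.id).of_eq
      (fun n => by simp [PFun.lift])
  have hp2 : Nat.RecursiveIn {PFun.lift d}
      (PFun.lift fun x : ℕ => Nat.pair x (encode (pre d x.unpair.2))) :=
    (hid.pair (hpre.comp hr)).of_eq (fun n => by simp [PFun.lift, Seq.seq])
  have ht2 : Nat.RecursiveIn {PFun.lift d} (PFun.lift fun x : ℕ =>
      if Θ x.unpair.1 x.unpair.2 (pre d x.unpair.2) then 0 else 1) :=
    ((Nat.Primrec.recursiveIn (O := {PFun.lift d}) ht).comp hp2).of_eq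
      (fun n => by simp [PFun.lift])
  have hf := ht2.rfind
  have ho : Nat.RecursiveIn {PFun.lift d} (PFun.lift fun x : ℕ => out x.unpair.1 x.unpair.2) := by
    have h3 : Nat.Primrec fun x : ℕ => out x.unpair.1 x.unpair.2 := by
      rw [← Primrec.nat_iff]
      exact hout.comp (Primrec.fst.comp Primrec.unpair) (Primrec.snd.comp Primrec.unpair)
    exact (Nat.Primrec.recursiveIn (O := {PFun.lift d}) h3).of_eq (fun n => by simp [PFun.lift])
  have hfin := ho.comp (hid.pair hf)
  refine hfin.of_eq fun m => ?_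
  have hex : ∃ v, v ∈ Nat.rfind fun n => (fun m => decide (m = 0)) <$>
      (PFun.lift (fun x : ℕ => if Θ x.unpair.1 x.unpair.2 (pre d x.unpair.2) then 0 else 1))
        (Nat.pair m n) := by
    obtain ⟨v, hv⟩ := h1 m
    have hdom : (Nat.rfind fun n => (fun m => decide (m = 0)) <$>
      (PFun.lift (fun x : ℕ => if Θ x.unpair.1 x.unpair.2 (pre d x.unpair.2) then 0 else 1))
        (Nat.pair m n)).Dom := by
      rw [Nat.rfind_dom]
      refine ⟨v, ?_, ?_⟩
      · simp [PFun.lift, hv]
      · intro m' _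
        simp [PFun.lift]
    exact ⟨_, Part.get_mem hdom⟩
  obtain ⟨v, hv⟩ := hex
  have hv' : Θ m v (pre d v) := by
    have := Nat.rfind_spec hv
    by_contra hne
    simp [PFun.lift, hne] at this
  have hv2 : (Nat.rfind fun n => (fun m => decide (m = 0)) <$>
      (PFun.lift (fun x : ℕ => if Θ x.unpair.1 x.unpair.2 (pre d x.unpair.2) then 0 else 1))
        (Nat.pair m n)) = Part.some v := Part.eq_some_iff.2 hv
  rw [hv2]
  simp [PFun.lift, Seq.seq, h2 m v hv']

end Pool.Agent.H78.DS
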