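import Mathlib

/-!
# The finite Ramsey theorem for `r`-sets with a primitive recursive bound
-/

set_option autoImplicit false

namespace Pool.Agent.H78.DS

open Finset

/-- the colour of an `r+1`-subset of `a ∪ A` with lower part in `a` does not depend on its
largest element -/
def EH {K : Type} (c : Finset ℕ → K) (r : ℕ) (a A : Finset ℕ) : Prop :=
  ∀ G ⊆ a, G.card = r → ∀ y ∈ a ∪ A, ∀ y' ∈ a ∪ A, (∀ x ∈ G, x < y) → (∀ x ∈ G, x < y') →
    c (insert y G) = c (insert y' G)

theorem endhom {K : Type} [Fintype K] (c : Finset ℕ → K) (r s : ℕ) :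
    ∀ (j : ℕ) (a A : Finset ℕ), a.card + j ≤ s →
      ((Fintype.card K) ^ (2 ^ s) + 1) ^ j ≤ A.card → (∀ x ∈ a, ∀ y ∈ A, x < y) → EH c r a A →
      ∃ a' : Finset ℕ, a' ⊆ a ∪ A ∧ a'.card = a.card + j ∧ EH c r a' ∅ := by
  classical
  intro j
  induction j with
  | zero =>
    intro a A _ _ _ h
    refine ⟨a, subset_union_left, by simp, ?_⟩
    intro G hG hr y hy y' hy' h1 h2
    exact h G hG hr y (by simp only [mem_union, notMem_empty, or_false] at hy; simp [hy]) y'
      (by simp only [mem_union, notMem_empty, or_false] at hy'; simp [hy']) h1 h2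
  | succ j ih =>
    intro a A hs hcard hlt hEH
    set q := (Fintype.card K) ^ (2 ^ s) with hq
    have hApos : 0 < A.card := lt_of_lt_of_le (by positivity) hcard
    have hAne : A.Nonempty := card_pos.1 hApos
    set x := A.min' hAne with hx
    have hxA : x ∈ A := A.min'_mem hAne
    have hxle : ∀ y ∈ A, x ≤ y := fun y hy => A.min'_le y hy
    set B := A.erase x with hB
    have hBcard : q * (q + 1) ^ j ≤ B.card := by
      rw [hB, card_erase_of_mem hxA]
      have h1 : 1 ≤ (q + 1) ^ j := Nat.one_le_pow _ _ (by omega)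
      have h2 : (q + 1) ^ (j + 1) = q * (q + 1) ^ j + (q + 1) ^ j := by ring
      omega
    have hxa : x ∉ a := fun h => lt_irrefl _ (hlt x h x hxA)
    let f : ℕ → ((insert x a).powerset → K) := fun y G => c (insert y G.1)
    have hmul : (univ : Finset ((insert x a).powerset → K)).card * (q + 1) ^ j ≤ B.card := by
      refine le_trans (Nat.mul_le_mul_right _ ?_) hBcard
      rw [card_univ, Fintype.card_fun, Fintype.card_coe, card_powerset, card_insert_of_notMem hxa]
      have hK : 0 < Fintype.card K := Fintype.card_pos_iff.2 ⟨c ∅⟩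
      exact Nat.pow_le_pow_right hK (Nat.pow_le_pow_right (by norm_num) (by omega))
    have hne : (univ : Finset ((insert x a).powerset → K)).Nonempty := ⟨f 0, mem_univ _⟩
    obtain ⟨v, _, hv⟩ := exists_le_card_fiber_of_mul_le_card_of_maps_to
      (f := f) (s := B) (t := univ) (fun _ _ => mem_univ _) hne hmul
    set A' := B.filter (fun y => f y = v) with hA'
    have hA'A : A' ⊆ A := (filter_subset _ _).trans (erase_subset _ _)
    have hlt' : ∀ z ∈ insert x a, ∀ y ∈ A', z < y := by
      intro z hz y hy
      have hyB : y ∈ B := (mem_filter.1 hy).1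
      have hyA : y ∈ A := mem_of_mem_erase hyB
      have hyx : y ≠ x := ne_of_mem_erase hyB
      rcases mem_insert.1 hz with rfl | hz
      · exact lt_of_le_of_ne (hxle y hyA) (Ne.symm hyx)
      · exact hlt z hz y hyA
    obtain ⟨a', ha', hc', hEH'⟩ := ih (insert x a) A' (by
        rw [card_insert_of_notMem hxa]; omega) hv hlt' (by
      intro G hG hr y hy y' hy' h1 h2
      by_cases hxG : x ∈ G
      · have key : ∀ z ∈ insert x a ∪ A', (∀ w ∈ G, w < z) → z ∈ A' := by
          intro z hz hz2
          rcases mem_union.1 hz with hz | hz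
          · exfalso
            have hxz := hz2 x hxG
            rcases mem_insert.1 hz with rfl | hz
            · exact lt_irrefl _ hxz
            · exact lt_asymm hxz (hlt z hz x hxA)
          · exact hz
        have e1 := (mem_filter.1 (key y hy h1)).2
        have e2 := (mem_filter.1 (key y' hy' h2)).2
        have := congrFun (e1.trans e2.symm) ⟨G, mem_powerset.2 hG⟩
        exact this
      · have hGa : G ⊆ a := fun z hz => by
          rcases mem_insert.1 (hG hz) with rfl | h
          · exact absurd hz hxG
          · exact h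
        have key : ∀ z ∈ insert x a ∪ A', z ∈ a ∪ A := by
          intro z hz
          rcases mem_union.1 hz with hz | hz
          · rcases mem_insert.1 hz with rfl | hz
            · exact mem_union_right _ hxA
            · exact mem_union_left _ hz
          · exact mem_union_right _ (hA'A hz)
        exact hEH G hGa hr y (key y hy) y' (key y' hy') h1 h2)
    refine ⟨a', ?_, ?_, hEH'⟩
    · intro z hz
      rcases mem_union.1 (ha' hz) with hz | hz
      · rcases mem_insert.1 hz with rfl | hz
        · exact mem_union_right _ hxA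
        · exact mem_union_left _ hz
      · exact mem_union_right _ (hA'A hz)
    · rw [hc', card_insert_of_notMem hxa]; ring

theorem ramsey (K : Type) [Fintype K] (r : ℕ) : ∃ R : ℕ → ℕ, Primrec R ∧
    ∀ (t : ℕ) (S₀ : Finset ℕ), R t ≤ S₀.card → ∀ c : Finset ℕ → K,
      ∃ S ⊆ S₀, S.card = t ∧ ∃ κ, ∀ F ⊆ S, F.card = r → c F = κ := by
  classical
  induction r with
  | zero =>
    refine ⟨id, Primrec.id, ?_⟩
    intro t S₀ h c
    obtain ⟨S, hS, hc⟩ := exists_subset_card_eq h
    refine ⟨S, hS, hc, c ∅, ?_⟩
    intro F _ hF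
    rw [card_eq_zero.1 hF]
  | succ r ih =>
    rcases Nat.eq_zero_or_pos r with rfl | hr0
    · refine ⟨fun t => Fintype.card K * t, ?_, ?_⟩
      · exact Primrec.nat_mul.comp (Primrec.const _) Primrec.id
      · intro t S₀ hcard c
        have hne : (univ : Finset K).Nonempty := ⟨c ∅, mem_univ _⟩
        obtain ⟨v, _, hv⟩ := exists_le_card_fiber_of_mul_le_card_of_maps_to
          (f := fun y => c {y}) (s := S₀) (t := univ) (fun _ _ => mem_univ _) hne
          (by rw [card_univ]; exact hcard)
        obtain ⟨S, hS, hc⟩ := exists_subset_card_eq hv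
        refine ⟨S, hS.trans (filter_subset _ _), hc, v, ?_⟩
        intro F hF hF1
        obtain ⟨y, rfl⟩ := card_eq_one.1 (by simpa using hF1)
        exact (mem_filter.1 (hS (hF (mem_singleton_self y)))).2
    obtain ⟨R, hR, hRam⟩ := ih
    let E : ℕ → ℕ := fun s => ((Fintype.card K) ^ (2 ^ s) + 1) ^ s
    have hE : Primrec E := by
      have hpow : Primrec₂ (fun a b : ℕ => a ^ b) := Primrec₂.unpaired'.1 Nat.Primrec.pow
      have h1 : Primrec fun s : ℕ => 2 ^ s := hpow.comp (Primrec.const 2) Primrec.id
      have h2 : Primrec fun s : ℕ => (Fintype.card K) ^ (2 ^ s) :=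
        hpow.comp (Primrec.const _) h1
      exact hpow.comp (Primrec.succ.comp h2) Primrec.id
    refine ⟨fun t => E (R t + 1), hE.comp (Primrec.succ.comp hR), ?_⟩
    intro t S₀ hcard c
    obtain ⟨a', ha', hc', hEH⟩ := endhom c r (R t + 1) (R t + 1) ∅ S₀ (by simp) hcard (by simp)
      (by
        intro G hG hr
        rw [subset_empty.1 hG] at hr
        simp at hr
        omega)
    simp only [empty_union, card_empty, zero_add, union_empty] at ha' hc' hEH
    have hne : a'.Nonempty := card_pos.1 (by omega)
    set top := a'.max' hne with htop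
    have htm : top ∈ a' := a'.max'_mem hne
    set S₁ := a'.erase top with hS₁
    have hS₁c : R t ≤ S₁.card := by rw [hS₁, card_erase_of_mem htm]; omega
    obtain ⟨S, hS, hSc, κ, hκ⟩ := hRam t S₁ hS₁c (fun G => c (insert top G))
    refine ⟨S, hS.trans ((erase_subset _ _).trans ha'), hSc, κ, ?_⟩
    intro F hF hF1
    have hFne : F.Nonempty := card_pos.1 (by omega)
    set m := F.max' hFne with hm
    have hmF : m ∈ F := F.max'_mem hFne
    have hFe : F = insert m (F.erase m) := (insert_erase hmF).symm
    have hGS : F.erase m ⊆ S := (erase_subset _ _).trans hF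
    have hGa : F.erase m ⊆ a' := hGS.trans (hS.trans (erase_subset _ _))
    have hG1 : (F.erase m).card = r := by rw [card_erase_of_mem hmF]; omega
    have hma : m ∈ a' := (hS.trans (erase_subset _ _)) (hF hmF)
    have h1 : ∀ x ∈ F.erase m, x < m := fun x hx =>
      lt_of_le_of_ne (F.le_max' x (mem_of_mem_erase hx)) (ne_of_mem_erase hx)
    have h2 : ∀ x ∈ F.erase m, x < top := fun x hx => by
      have hx1 : x ∈ S₁ := hS (hGS hx)
      exact lt_of_le_of_ne (a'.le_max' x (mem_of_mem_erase hx1)) (ne_of_mem_erase hx1)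
    have h3 := hEH (F.erase m) hGa hG1 m (by simpa using hma) top (by simpa using htm) h1 h2
    rw [hFe, h3]
    exact hκ _ hGS hG1

end Pool.Agent.H78.DS
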